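import Pool.Agent.H279Z.RG.Four

/-!
The two-part construction: when few copies of `H` meet a set of `K / p` vertices in two points, the
chromatic threshold of a non-bipartite `H` is at least `1 / 2`.
-/

namespace Pool.Agent.H279Z.RG

open Finset Classical Filter Topology

/-- Copies of `H` with at least two vertices in `R`. -/
noncomputable def cop {n k : ℕ} (H : SimpleGraph (Fin k)) (R : Finset (Fin n))
    (ω : Sym2 (Fin n) → Bool) : Finset (Fin k → Fin n) :=
  Finset.univ.filter (fun φ => (Function.Injective φ ∧ ∃ a b, a ≠ b ∧ φ a ∈ R ∧ φ b ∈ R) ∧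
    ∀ a b, H.Adj a b → ω s(φ a, φ b) = true)

lemma card_two_in {n k : ℕ} (R : Finset (Fin n)) :
    ((Finset.univ.filter (fun φ : Fin k → Fin n => ∃ a b, a ≠ b ∧ φ a ∈ R ∧ φ b ∈ R)).card : ℝ) *
      (n : ℝ) ^ 2 ≤ (k : ℝ) ^ 2 * (R.card ^ 2 * (n : ℝ) ^ k) := by
  have h1 : Finset.univ.filter (fun φ : Fin k → Fin n => ∃ a b, a ≠ b ∧ φ a ∈ R ∧ φ b ∈ R) ⊆
      (Finset.univ.offDiag : Finset (Fin k × Fin k)).biUnion (fun x =>
        Fintype.piFinset (fun i => if i ∈ ({x.1, x.2} : Finset (Fin k)) then R else Finset.univ)) := by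
    intro φ hφ
    obtain ⟨a, b, hab, ha, hb⟩ := (Finset.mem_filter.1 hφ).2
    refine Finset.mem_biUnion.2 ⟨(a, b), by simpa using hab, Fintype.mem_piFinset.2 fun i => ?_⟩
    split_ifs with h
    · simp only [Finset.mem_insert, Finset.mem_singleton] at h
      rcases h with rfl | rfl
      · exact ha
      · exact hb
    · exact Finset.mem_univ _
  have h2 : ∀ x ∈ (Finset.univ.offDiag : Finset (Fin k × Fin k)),
      (Fintype.piFinset (fun i => if i ∈ ({x.1, x.2} : Finset (Fin k)) then R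
        else Finset.univ)).card * n ^ 2 = R.card ^ 2 * n ^ k := by
    intro x hx
    have hne : x.1 ≠ x.2 := by simpa using hx
    have hc : ({x.1, x.2} : Finset (Fin k)).card = 2 := Finset.card_pair hne
    have hk : 2 ≤ k := by
      have := Finset.card_le_univ ({x.1, x.2} : Finset (Fin k))
      rw [hc, Fintype.card_fin] at this; exact this
    rw [Fintype.card_piFinset]
    simp only [apply_ite Finset.card, Finset.card_univ, Fintype.card_fin]
    rw [Finset.prod_ite, Finset.prod_const, Finset.prod_const, Finset.filter_mem_eq_inter,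
      Finset.univ_inter, hc, Finset.filter_not, Finset.filter_mem_eq_inter, Finset.univ_inter,
      Finset.card_univ_diff, hc, Fintype.card_fin, mul_assoc, ← pow_add]
    congr 2; omega
  have h3 : (Finset.univ.filter
      (fun φ : Fin k → Fin n => ∃ a b, a ≠ b ∧ φ a ∈ R ∧ φ b ∈ R)).card * n ^ 2 ≤
      k ^ 2 * (R.card ^ 2 * n ^ k) := by
    refine (Nat.mul_le_mul_right _ ((Finset.card_le_card h1).trans Finset.card_biUnion_le)).trans ?_
    rw [Finset.sum_mul, Finset.sum_congr rfl h2, Finset.sum_const, smul_eq_mul]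
    refine Nat.mul_le_mul_right _ ?_
    have := Finset.card_le_univ (Finset.univ.offDiag : Finset (Fin k × Fin k))
    simpa [pow_two] using this
  exact_mod_cast h3

lemma Ex_cop {n k : ℕ} (H : SimpleGraph (Fin k)) (R : Finset (Fin n)) {p : ℝ} (h0 : 0 ≤ p) :
    Ex p (fun ω => ((cop H R ω).card : ℝ)) * (n : ℝ) ^ 2 ≤
      (k : ℝ) ^ 2 * (R.card ^ 2 * (n : ℝ) ^ k) * p ^ H.edgeSet.ncard := by
  have h1 : ∀ ω : Sym2 (Fin n) → Bool, ((cop H R ω).card : ℝ) =
      ∑ φ ∈ Finset.univ.filter (fun φ : Fin k → Fin n =>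
        Function.Injective φ ∧ ∃ a b, a ≠ b ∧ φ a ∈ R ∧ φ b ∈ R),
        ind (∀ a b, H.Adj a b → ω s(φ a, φ b) = true) := by
    intro ω
    unfold cop ind
    rw [← Finset.filter_filter, Finset.card_filter]
    push_cast
    refine Finset.sum_congr rfl fun φ _ => ?_
    split_ifs <;> rfl
  simp only [h1]
  rw [Ex_sum]
  have h2 : ∀ φ ∈ Finset.univ.filter (fun φ : Fin k → Fin n =>
        Function.Injective φ ∧ ∃ a b, a ≠ b ∧ φ a ∈ R ∧ φ b ∈ R),
      Ex p (fun ω : Sym2 (Fin n) → Bool => ind (∀ a b, H.Adj a b → ω s(φ a, φ b) = true)) =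
        p ^ H.edgeSet.ncard := by
    intro φ hφ
    have hinj := (Finset.mem_filter.1 hφ).2.1
    have h3 := Pr_all p (H.edgeFinset.image (Sym2.map φ))
    rw [Finset.card_image_of_injective _ (Sym2.map.injective hinj)] at h3
    have h4 : H.edgeSet.ncard = H.edgeFinset.card := by
      rw [← Set.ncard_coe_finset, SimpleGraph.coe_edgeFinset]
    rw [h4, ← h3]
    unfold Pr
    congr 1; funext ω; congr 1; apply propext
    constructor
    · intro h i hi
      obtain ⟨e, he, rfl⟩ := Finset.mem_image.1 hi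
      induction e using Sym2.ind with
      | _ a b => exact h a b (by simpa using he)
    · intro h a b hab
      exact h _ (Finset.mem_image.2 ⟨s(a, b), by simpa using hab, rfl⟩)
  rw [Finset.sum_congr rfl h2, Finset.sum_const, nsmul_eq_mul]
  have h5 := card_two_in (k := k) R
  have h6 : ((Finset.univ.filter (fun φ : Fin k → Fin n =>
        Function.Injective φ ∧ ∃ a b, a ≠ b ∧ φ a ∈ R ∧ φ b ∈ R)).card : ℝ) ≤
      (Finset.univ.filter (fun φ : Fin k → Fin n => ∃ a b, a ≠ b ∧ φ a ∈ R ∧ φ b ∈ R)).card := by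
    exact_mod_cast Finset.card_le_card (fun φ hφ => by
      simp only [Finset.mem_filter, Finset.mem_univ, true_and] at hφ ⊢
      exact hφ.2)
  have h7 : 0 ≤ p ^ H.edgeSet.ncard := by positivity
  have h8 : (0 : ℝ) ≤ (n : ℝ) ^ 2 := by positivity
  nlinarith [mul_le_mul_of_nonneg_right h6 h8]

/-- The target property. -/
def Good2 {n k : ℕ} (H : SimpleGraph (Fin k)) (C : ℕ) (t : ℝ) (Γ : SimpleGraph (Fin n)) : Prop :=
  ∃ G : SimpleGraph (Fin n), G ≤ Γ ∧ ¬ H.IsContained G ∧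
    (∀ v, t ≤ ((G.neighborSet v).ncard : ℝ)) ∧ ¬ G.Colorable C

lemma build2 {n k C : ℕ} (H : SimpleGraph (Fin k)) (hH : ¬ H.Colorable 2) {κ p a b : ℝ}
    (R : Finset (Fin n)) (x : Finset (Fin n) × SimpleGraph (Fin n))
    (ω : Sym2 (Fin n) → Bool) (hcore : Core k C κ p R x ω)
    (h1 : ∀ v, ∀ c < 2, a ≤ ((nb ω v (part n 2 R c)).card : ℝ))
    (h2 : (k : ℝ) * (cop H R ω).card ≤ b) : Good2 H C (a - b) (gr ω) := by
  obtain ⟨W, F⟩ := x
  obtain ⟨c1, -, c3, c4, c5, c6⟩ := hcore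
  simp only at c1 c3 c4 c5 c6
  let side : Fin n → Fin 2 := fun v => if v ∈ R then 0 else ⟨v.val % 2, Nat.mod_lt _ (by norm_num)⟩
  let Z : Finset (Fin n) := (cop H R ω).biUnion (fun φ => Finset.univ.image φ)
  have hZ : Z.card ≤ k * (cop H R ω).card := by
    refine Finset.card_biUnion_le.trans ?_
    rw [mul_comm, ← smul_eq_mul, ← Finset.sum_const]
    exact Finset.sum_le_sum fun φ _ => Finset.card_image_le.trans (by simp)
  let G : SimpleGraph (Fin n) :=
    { Adj := fun u v => F.Adj u v ∨ ((gr ω).Adj u v ∧ side u ≠ side v ∧ ¬ (u ∈ Z ∧ v ∈ Z))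
      symm := ⟨fun u v h => by
        rcases h with h | ⟨h, h', h''⟩
        · exact Or.inl h.symm
        · exact Or.inr ⟨h.symm, h'.symm, fun h3 => h'' h3.symm⟩⟩
      loopless := ⟨fun u h => by
        rcases h with h | ⟨h, _⟩
        · exact h.ne rfl
        · exact h.ne rfl⟩ }
  have hle : G ≤ gr ω := by
    rintro u v (h | ⟨h, _⟩)
    · exact c3 h
    · exact h
  refine ⟨G, hle, ?_, ?_, ?_⟩
  · rintro ⟨f⟩
    apply hH
    by_cases hF : ∃ a b, H.Adj a b ∧ F.Adj (f a) (f b)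
    · obtain ⟨a, b, hab, hF⟩ := hF
      have hmem : (f : Fin k → Fin n) ∈ cop H R ω := by
        simp only [cop, Finset.mem_filter, Finset.mem_univ, true_and]
        exact ⟨⟨f.injective, a, b, hab.ne, c1 (c4 _ _ hF), c1 (c4 _ _ hF.symm)⟩,
          fun a b hab => ((gr_adj _ _ _).1 (hle (f.toHom.map_adj hab))).1⟩
      have hZ' : ∀ a, f a ∈ Z := fun a =>
        Finset.mem_biUnion.2 ⟨f, hmem, Finset.mem_image_of_mem _ (Finset.mem_univ a)⟩
      obtain ⟨φ, hφ⟩ := c6 (Finset.univ.image f) (Finset.card_image_le.trans (by simp))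
      have := (SimpleGraph.Coloring.mk (G := H) (fun a => φ (f a)) (fun {a b} hab => by
        rcases f.toHom.map_adj hab with h | ⟨_, _, h⟩
        · exact hφ _ (Finset.mem_image_of_mem _ (Finset.mem_univ a)) _
            (Finset.mem_image_of_mem _ (Finset.mem_univ b)) h
        · exact absurd ⟨hZ' a, hZ' b⟩ h)).colorable
      simpa using this
    · exact ⟨SimpleGraph.Coloring.mk (fun a => side (f a)) (fun {a b} hab => by
        rcases f.toHom.map_adj hab with h | ⟨_, h, _⟩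
        · exact absurd ⟨a, b, hab, h⟩ hF
        · exact h)⟩
  · intro v
    obtain ⟨c, hc, hcv⟩ : ∃ c < 2, c ≠ (side v).val := ⟨((side v).val + 1) % 2, by omega, by omega⟩
    have e1 : ((nb ω v (part n 2 R c) \ Z : Finset (Fin n)) : Set (Fin n)).ncard ≤
        (G.neighborSet v).ncard := by
      refine Set.ncard_le_ncard (fun y hy => ?_) (Set.toFinite _)
      obtain ⟨hy, hy2⟩ := Finset.mem_sdiff.1 (Finset.mem_coe.1 hy)
      simp only [nb, part, Finset.mem_filter] at hy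
      have e2 : (side y).val = c := by
        simp only [side, hy.1.2.2, if_false]; exact hy.1.2.1
      have e3 : side v ≠ side y := fun h => hcv (by rw [← e2, h])
      exact Or.inr ⟨(gr_adj _ _ _).2 ⟨hy.2, fun h => e3 (by rw [h])⟩, e3, fun h => hy2 h.2⟩
    rw [Set.ncard_coe_finset] at e1
    have e4 := Finset.le_card_sdiff Z (nb ω v (part n 2 R c))
    have e5 : (nb ω v (part n 2 R c)).card ≤ (G.neighborSet v).ncard + k * (cop H R ω).card := by
      omega
    have e6 : ((nb ω v (part n 2 R c)).card : ℝ) ≤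
        (G.neighborSet v).ncard + k * (cop H R ω).card := by exact_mod_cast e5
    linarith [h1 v c hc]
  · intro hcol
    exact c5 (hcol.mono_left (fun u v h => Or.inl h))

theorem two_part {k : ℕ} (H : SimpleGraph (Fin k)) (hH : ¬ H.Colorable 2) {p : ℕ → ℝ}
    (hp : ∀ n, 0 < p n ∧ p n ≤ 1) (hp0 : Tendsto p atTop (𝓝 0))
    {η : ℝ} (hη : 0 < η) (hlow : ∀ᶠ n : ℕ in atTop, (n : ℝ) ^ η ≤ p n * n)
    (hcop : Tendsto (fun n : ℕ => (n : ℝ) ^ k * p n ^ H.edgeSet.ncard / (p n * n) ^ 3) atTop (𝓝 0))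
    (C : ℕ) {d : ℝ} (hd : d < 1 / 2) : ∀ᶠ n : ℕ in atTop,
      1 / 2 ≤ Pr (p n) (fun ω : Sym2 (Fin n) → Bool => Good2 H C (d * p n * n) (gr ω)) := by
  obtain ⟨g1, g2⟩ := growth hη hlow
  have hk : 0 < k := by
    rcases Nat.eq_zero_or_pos k with rfl | h
    · exact absurd (SimpleGraph.Colorable.of_isEmpty 2) hH
    · exact h
  have hkR : (0 : ℝ) < k := by exact_mod_cast hk
  set ε : ℝ := min ((1 / 2 - d) / 4) (1 / 8) with hεdef
  have hε : 0 < ε := lt_min (by linarith) (by norm_num)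
  have hε1 : ε ≤ 1 / 8 := min_le_right _ _
  have hε2 : ε ≤ (1 / 2 - d) / 4 := min_le_left _ _
  obtain ⟨K, p0, hK, hp0', Hc⟩ := core k C (κ := 1) (δ := 1 / 4) (by positivity) (by norm_num)
  filter_upwards [hp0.eventually (ge_mem_nhds hp0'),
    g1.eventually_ge_atTop ((K + 1) / ε),
    hcop.eventually (ge_mem_nhds (show (0 : ℝ) < ε / (8 * k ^ 3 * (K + 1) ^ 2) by positivity)),
    (g2 (ε ^ 2 / 4 * (1 / 2 - 2 * ε)) (by
      have : 0 < 1 / 2 - 2 * ε := by linarith
      positivity)).eventually (ge_mem_nhds (show (0 : ℝ) < 1 / 16 by norm_num)),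
    eventually_gt_atTop 0]
    with n e1 e2 e3 e4 hn0
  obtain ⟨q0, q1⟩ := hp n
  set q := p n with hq
  rw [div_le_iff₀ hε] at e2
  have hnn : (0 : ℝ) < n := by exact_mod_cast hn0
  have hqn : q * n ≤ n := by nlinarith
  have hr0 : (⌈K / q⌉₊ : ℝ) * q ≤ K + 1 := by
    have a1 := Nat.ceil_lt_add_one (show 0 ≤ K / q by positivity)
    have a2 : (K / q + 1) * q = K + q := by field_simp
    nlinarith
  have hr1 : (⌈K / q⌉₊ : ℝ) ≤ ε * n := by
    have : (⌈K / q⌉₊ : ℝ) * q ≤ ε * n * q := by nlinarith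
    exact le_of_mul_le_mul_right this q0
  have hr2 : ⌈K / q⌉₊ ≤ (Finset.univ : Finset (Fin n)).card := by
    rw [Finset.card_univ, Fintype.card_fin]
    have : (⌈K / q⌉₊ : ℝ) ≤ n := by nlinarith
    exact_mod_cast this
  obtain ⟨R, -, hR⟩ := Finset.exists_subset_card_eq hr2
  have H1 := Hc q q0 e1 (Fin n) R (by rw [hR]; exact Nat.le_ceil _)
  have hone : 1 ≤ ε * (q * n) := by nlinarith
  have H2 : Pr q (fun ω : Sym2 (Fin n) → Bool => ε * (q * n) / k ≤ ((cop H R ω).card : ℝ)) ≤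
      1 / 8 := by
    refine (markov q0.le q1 (by positivity) _ (fun ω => Nat.cast_nonneg _)).trans ?_
    have a1 := Ex_cop H R (n := n) q0.le
    rw [hR] at a1
    set E := Ex q (fun ω => ((cop H R ω).card : ℝ)) with hE
    set r : ℝ := (⌈K / q⌉₊ : ℝ) with hr
    have hr' : 0 ≤ r := Nat.cast_nonneg _
    set M : ℝ := (n : ℝ) ^ k * q ^ H.edgeSet.ncard with hM
    have hM0 : 0 ≤ M := by positivity
    rw [div_le_div_iff₀ (by positivity) (by positivity)] at e3
    rw [div_le_iff₀ (by positivity)]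
    have a2 : (r * q) ^ 2 ≤ (K + 1) ^ 2 := pow_le_pow_left₀ (by positivity) hr0 2
    have a3 : E * (q * n) ^ 2 ≤ k ^ 2 * (K + 1) ^ 2 * M := by
      calc E * (q * n) ^ 2 = (E * n ^ 2) * q ^ 2 := by ring
        _ ≤ ((k : ℝ) ^ 2 * (r ^ 2 * (n : ℝ) ^ k) * q ^ H.edgeSet.ncard) * q ^ 2 :=
          mul_le_mul_of_nonneg_right a1 (by positivity)
        _ = k ^ 2 * (r * q) ^ 2 * M := by rw [hM]; ring
        _ ≤ _ := by gcongr
    have a4 : E * (8 * k) * (q * n) ^ 2 ≤ ε * (q * n) * (q * n) ^ 2 := by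
      calc E * (8 * k) * (q * n) ^ 2 = 8 * k * (E * (q * n) ^ 2) := by ring
        _ ≤ 8 * k * (k ^ 2 * (K + 1) ^ 2 * M) := by gcongr
        _ = M * (8 * k ^ 3 * (K + 1) ^ 2) := by ring
        _ ≤ ε * (q * n) ^ 3 := e3
        _ = _ := by ring
    have a5 : E * (8 * k) ≤ ε * (q * n) := le_of_mul_le_mul_right a4 (by positivity)
    rw [show 1 / 8 * (ε * (q * n) / k) = ε * (q * n) / (8 * k) by field_simp,
      le_div_iff₀ (by positivity)]
    exact a5
  have H3 := deg_event (p := q) (ε := ε) (m := (1 / 2 - 2 * ε) * n) q0.le q1 hε (by linarith) n 2 R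
    (fun c hc => by
      have a1 := part_card n 2 R c hc
      rw [hR] at a1
      push_cast at a1
      nlinarith)
  have H4 := Pr_and_not q0.le q1
    (fun ω : Sym2 (Fin n) → Bool => ∃ x, Core k C 1 q R x ω)
    (fun ω : Sym2 (Fin n) → Bool => ε * (q * n) / k ≤ ((cop H R ω).card : ℝ))
  have H5 := Pr_and_not q0.le q1
    (fun ω : Sym2 (Fin n) → Bool => (∃ x, Core k C 1 q R x ω) ∧
      ¬ ε * (q * n) / k ≤ ((cop H R ω).card : ℝ))
    (fun ω : Sym2 (Fin n) → Bool => ∃ x ∈ (Finset.univ : Finset (Fin n)) ×ˢ range 2,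
      ((nb ω x.1 (part n 2 R x.2)).card : ℝ) ≤ (1 - ε) * q * ((1 / 2 - 2 * ε) * n))
  have e5 : -(ε ^ 2 / 4) * q * ((1 / 2 - 2 * ε) * n) = -(ε ^ 2 / 4 * (1 / 2 - 2 * ε)) * (q * n) := by
    ring
  rw [e5] at H3
  push_cast at H3
  refine le_trans (by linarith) (H5.trans (Pr_mono q0.le q1 ?_))
  rintro ω ⟨⟨⟨x, hx⟩, hb⟩, hdeg⟩
  obtain ⟨G, b1, b2, b3, b4⟩ := build2 H hH (a := (1 - ε) * q * ((1 / 2 - 2 * ε) * n))
    (b := ε * (q * n)) R x ω hx
    (fun v c hc => by
      by_contra hcon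
      exact hdeg ⟨(v, c), by simpa using hc, (not_le.1 hcon).le⟩)
    (by
      rw [not_le, lt_div_iff₀ hkR] at hb
      linarith)
  refine ⟨G, b1, b2, fun v => le_trans ?_ (b3 v), b4⟩
  have a1 : 0 ≤ q * n := by positivity
  have a2 : d ≤ 1 / 2 - 4 * ε := by linarith
  have a3 : d * (q * n) ≤ (1 / 2 - 4 * ε) * (q * n) := mul_le_mul_of_nonneg_right a2 a1
  have a4 : 0 ≤ ε * ε * (q * n) := by positivity
  have a5 : 0 ≤ ε * (q * n) := by positivity
  nlinarith

theorem not_whp_two {k : ℕ} (H : SimpleGraph (Fin k)) (hH : ¬ H.Colorable 2) {p : ℕ → ℝ}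
    (hp : ∀ n, 0 < p n ∧ p n ≤ 1) (hp0 : Tendsto p atTop (𝓝 0))
    {η : ℝ} (hη : 0 < η) (hlow : ∀ᶠ n : ℕ in atTop, (n : ℝ) ^ η ≤ p n * n)
    (hcop : Tendsto (fun n : ℕ => (n : ℝ) ^ k * p n ^ H.edgeSet.ncard / (p n * n) ^ 3) atTop (𝓝 0))
    {d : ℝ} (hd : d < 1 / 2) (C : ℕ) :
    ¬ Tendsto (fun n : ℕ => Pr (p n) (fun ω : Sym2 (Fin n) → Bool =>
      ∀ G : SimpleGraph (Fin n), G ≤ gr ω → ¬ H.IsContained G →
        (∀ v, d * p n * n ≤ ((G.neighborSet v).ncard : ℝ)) → G.Colorable C)) atTop (𝓝 1) := by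
  intro ht
  obtain ⟨n, h1, h2⟩ := ((two_part H hH hp hp0 hη hlow hcop C hd).and
    (ht.eventually (lt_mem_nhds (show (1 / 2 : ℝ) < 1 by norm_num)))).exists
  have h3 := Pr_not (p n) (fun ω : Sym2 (Fin n) → Bool => Good2 H C (d * p n * n) (gr ω))
  have h4 := Pr_mono (hp n).1.le (hp n).2 (A := fun ω : Sym2 (Fin n) → Bool =>
      ∀ G : SimpleGraph (Fin n), G ≤ gr ω → ¬ H.IsContained G →
        (∀ v, d * p n * n ≤ ((G.neighborSet v).ncard : ℝ)) → G.Colorable C)
    (B := fun ω : Sym2 (Fin n) → Bool => ¬ Good2 H C (d * p n * n) (gr ω)) (by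
      rintro ω hω ⟨G, a1, a2, a3, a4⟩
      exact a4 (hω G a1 a2 a3))
  linarith

/-- Minimum degree `4 p n` is impossible with high probability. -/
theorem whp_four {k : ℕ} (H : SimpleGraph (Fin k)) {p : ℕ → ℝ}
    (hp : ∀ n, 0 < p n ∧ p n ≤ 1) (hpn : Tendsto (fun n : ℕ => p n * n) atTop atTop) :
    Tendsto (fun n : ℕ => Pr (p n) (fun ω : Sym2 (Fin n) → Bool =>
      ∀ G : SimpleGraph (Fin n), G ≤ gr ω → ¬ H.IsContained G →
        (∀ v, 4 * p n * n ≤ ((G.neighborSet v).ncard : ℝ)) → G.Colorable 1)) atTop (𝓝 1) := by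
  have h1 : Tendsto (fun n : ℕ => 1 - Real.exp (-(p n * n))) atTop (𝓝 1) := by
    simpa using (Real.tendsto_exp_neg_atTop_nhds_zero.comp hpn).const_sub 1
  refine tendsto_of_tendsto_of_tendsto_of_le_of_le' h1 tendsto_const_nhds ?_
    (Eventually.of_forall fun n => Pr_le_one (hp n).1.le (hp n).2 _)
  filter_upwards [eventually_gt_atTop 0] with n hn
  obtain ⟨q0, q1⟩ := hp n
  let v : Fin n := ⟨0, hn⟩
  have h2 := chernoff_upper (p := p n) (q := p n) (t := 4 * p n * n) (l := 1) q0.le q1 zero_le_one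
    (Finset.univ : Finset (Fin n)) (fun x => {s(v, x)}) (fun x ω => ω s(v, x) = true)
    (fun x _ ω ω' h => by simp only [h _ rfl])
    (fun x _ y _ hxy => by
      rw [Set.disjoint_singleton]; exact fun e => hxy (sym2_inj v e))
    (fun x _ => (Pr_coord _ _).le)
  have h3 : Real.exp ((Real.exp 1 - 1) * p n * (Finset.univ : Finset (Fin n)).card -
      1 * (4 * p n * n)) ≤ Real.exp (-(p n * n)) := by
    rw [Real.exp_le_exp, Finset.card_univ, Fintype.card_fin]
    have := Real.exp_one_lt_d9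
    have h4 : 0 ≤ p n * n := by positivity
    nlinarith
  have h5 := Pr_not (p n) (fun ω : Sym2 (Fin n) → Bool => 4 * p n * n ≤
    (((Finset.univ : Finset (Fin n)).filter (fun x => ω s(v, x) = true)).card : ℝ))
  refine le_trans (by linarith) (h5.ge.trans (Pr_mono q0.le q1 ?_))
  intro ω hω G hG _ hdeg
  exfalso
  apply hω
  refine (hdeg v).trans ?_
  have : (G.neighborSet v).ncard ≤ ((((Finset.univ : Finset (Fin n)).filter
      (fun x => ω s(v, x) = true)) : Finset (Fin n)) : Set (Fin n)).ncard := by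
    refine Set.ncard_le_ncard (fun y hy => ?_) (Set.toFinite _)
    simpa using ((gr_adj _ _ _).1 (hG hy)).1
  rw [Set.ncard_coe_finset] at this
  exact_mod_cast this

end Pool.Agent.H279Z.RG
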