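import Mathlib

/-!
Finite Bernoulli product spaces: expectation, dependence on coordinates, resampling,
independence and Chernoff bounds.
-/

namespace Pool.Agent.H279Z.RG

open Finset Classical

variable {ι : Type*} [Fintype ι]

/-- Weight of a configuration. -/
noncomputable def wt (p : ℝ) (ω : ι → Bool) : ℝ := ∏ i, if ω i then p else 1 - p

/-- Expectation. -/
noncomputable def Ex (p : ℝ) (f : (ι → Bool) → ℝ) : ℝ := ∑ ω, wt p ω * f ω

/-- Indicator. -/
noncomputable def ind (P : Prop) : ℝ := if P then 1 else 0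

/-- Probability. -/
noncomputable def Pr (p : ℝ) (A : (ι → Bool) → Prop) : ℝ := Ex p (fun ω => ind (A ω))

/-- `f` depends only on the coordinates in `J`. -/
def DepOn {β : Sort*} (J : Set ι) (f : (ι → Bool) → β) : Prop :=
  ∀ ω ω' : ι → Bool, (∀ i ∈ J, ω i = ω' i) → f ω = f ω'

lemma ind_nonneg (P : Prop) : 0 ≤ ind P := by unfold ind; split_ifs <;> norm_num
lemma ind_le_one (P : Prop) : ind P ≤ 1 := by unfold ind; split_ifs <;> norm_num
lemma ind_true {P : Prop} (h : P) : ind P = 1 := by simp [ind, h]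
lemma ind_false {P : Prop} (h : ¬ P) : ind P = 0 := by simp [ind, h]
lemma ind_mono {P Q : Prop} (h : P → Q) : ind P ≤ ind Q := by
  by_cases hP : P
  · rw [ind_true hP, ind_true (h hP)]
  · rw [ind_false hP]; exact ind_nonneg _
lemma ind_and (P Q : Prop) : ind (P ∧ Q) = ind P * ind Q := by
  by_cases hP : P <;> by_cases hQ : Q <;> simp [ind, hP, hQ]
lemma ind_not (P : Prop) : ind (¬ P) = 1 - ind P := by
  by_cases hP : P <;> simp [ind, hP]

lemma wt_nonneg {p : ℝ} (h0 : 0 ≤ p) (h1 : p ≤ 1) (ω : ι → Bool) : 0 ≤ wt p ω :=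
  Finset.prod_nonneg fun i _ => by split_ifs <;> linarith

lemma Ex_prod (p : ℝ) (g : ι → Bool → ℝ) :
    Ex p (fun ω => ∏ i, g i (ω i)) = ∏ i, (p * g i true + (1 - p) * g i false) := by
  unfold Ex wt
  have h := Finset.prod_univ_sum (fun _ : ι => (Finset.univ : Finset Bool))
    (fun i b => (if b then p else 1 - p) * g i b)
  simp only [Fintype.piFinset_univ] at h
  simp only [← Finset.prod_mul_distrib]
  rw [← h]
  refine Finset.prod_congr rfl fun i _ => ?_
  simp

lemma Ex_const (p c : ℝ) : Ex p (fun _ : ι → Bool => c) = c := by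
  have h := Ex_prod (ι := ι) p (fun _ _ => 1)
  simp only [Finset.prod_const_one, mul_one, add_sub_cancel] at h
  unfold Ex at *
  simp only [mul_one] at h
  rw [← Finset.sum_mul, h, one_mul]

lemma Ex_add (p : ℝ) (f g : (ι → Bool) → ℝ) :
    Ex p (fun ω => f ω + g ω) = Ex p f + Ex p g := by
  unfold Ex; simp only [mul_add, Finset.sum_add_distrib]

lemma Ex_sub (p : ℝ) (f g : (ι → Bool) → ℝ) :
    Ex p (fun ω => f ω - g ω) = Ex p f - Ex p g := by
  unfold Ex; simp only [mul_sub, Finset.sum_sub_distrib]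

lemma Ex_mul_const (p c : ℝ) (f : (ι → Bool) → ℝ) :
    Ex p (fun ω => f ω * c) = Ex p f * c := by
  unfold Ex; simp only [← mul_assoc, Finset.sum_mul]

lemma Ex_const_mul (p c : ℝ) (f : (ι → Bool) → ℝ) :
    Ex p (fun ω => c * f ω) = c * Ex p f := by
  unfold Ex; rw [Finset.mul_sum]; refine Finset.sum_congr rfl fun ω _ => by ring

lemma Ex_sum {α : Type*} (p : ℝ) (s : Finset α) (f : α → (ι → Bool) → ℝ) :
    Ex p (fun ω => ∑ a ∈ s, f a ω) = ∑ a ∈ s, Ex p (f a) := by
  unfold Ex; simp only [Finset.mul_sum]; rw [Finset.sum_comm]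

lemma Ex_mono {p : ℝ} (h0 : 0 ≤ p) (h1 : p ≤ 1) {f g : (ι → Bool) → ℝ} (h : ∀ ω, f ω ≤ g ω) :
    Ex p f ≤ Ex p g :=
  Finset.sum_le_sum fun ω _ => mul_le_mul_of_nonneg_left (h ω) (wt_nonneg h0 h1 ω)

lemma Ex_nonneg {p : ℝ} (h0 : 0 ≤ p) (h1 : p ≤ 1) {f : (ι → Bool) → ℝ} (h : ∀ ω, 0 ≤ f ω) :
    0 ≤ Ex p f := by
  have := Ex_mono h0 h1 (f := fun _ => 0) (g := f) h
  rwa [Ex_const] at this

lemma Pr_nonneg {p : ℝ} (h0 : 0 ≤ p) (h1 : p ≤ 1) (A : (ι → Bool) → Prop) : 0 ≤ Pr p A :=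
  Ex_nonneg h0 h1 fun _ => ind_nonneg _

lemma Pr_le_one {p : ℝ} (h0 : 0 ≤ p) (h1 : p ≤ 1) (A : (ι → Bool) → Prop) : Pr p A ≤ 1 := by
  have := Ex_mono h0 h1 (f := fun ω => ind (A ω)) (g := fun _ => 1) fun _ => ind_le_one _
  rwa [Ex_const] at this

lemma Pr_mono {p : ℝ} (h0 : 0 ≤ p) (h1 : p ≤ 1) {A B : (ι → Bool) → Prop} (h : ∀ ω, A ω → B ω) :
    Pr p A ≤ Pr p B :=
  Ex_mono h0 h1 fun ω => ind_mono (h ω)

lemma Pr_not (p : ℝ) (A : (ι → Bool) → Prop) : Pr p (fun ω => ¬ A ω) = 1 - Pr p A := by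
  unfold Pr; simp only [ind_not]; rw [Ex_sub, Ex_const]

lemma Pr_or_le {p : ℝ} (h0 : 0 ≤ p) (h1 : p ≤ 1) (A B : (ι → Bool) → Prop) :
    Pr p (fun ω => A ω ∨ B ω) ≤ Pr p A + Pr p B := by
  unfold Pr; rw [← Ex_add]
  refine Ex_mono h0 h1 fun ω => ?_
  by_cases hA : A ω
  · rw [ind_true hA]; linarith [ind_le_one (A ω ∨ B ω), ind_nonneg (B ω)]
  · by_cases hB : B ω
    · rw [ind_true hB]; linarith [ind_le_one (A ω ∨ B ω), ind_nonneg (A ω)]
    · rw [ind_false (by tauto)]; linarith [ind_nonneg (A ω), ind_nonneg (B ω)]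

lemma Pr_exists_le {α : Type*} {p : ℝ} (h0 : 0 ≤ p) (h1 : p ≤ 1) (s : Finset α)
    (A : α → (ι → Bool) → Prop) :
    Pr p (fun ω => ∃ a ∈ s, A a ω) ≤ ∑ a ∈ s, Pr p (A a) := by
  unfold Pr; rw [← Ex_sum]
  refine Ex_mono h0 h1 fun ω => ?_
  by_cases h : ∃ a ∈ s, A a ω
  · rw [ind_true h]
    obtain ⟨a, ha, hA⟩ := h
    calc (1 : ℝ) = ind (A a ω) := (ind_true hA).symm
      _ ≤ _ := Finset.single_le_sum (f := fun a => ind (A a ω)) (fun _ _ => ind_nonneg _) ha
  · rw [ind_false h]; exact Finset.sum_nonneg fun _ _ => ind_nonneg _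

lemma Pr_exists_le' {α : Type*} {p b : ℝ} (h0 : 0 ≤ p) (h1 : p ≤ 1) (s : Finset α)
    (A : α → (ι → Bool) → Prop) (hb : ∀ a ∈ s, Pr p (A a) ≤ b) :
    Pr p (fun ω => ∃ a ∈ s, A a ω) ≤ s.card * b := by
  refine (Pr_exists_le h0 h1 s A).trans ?_
  have := Finset.sum_le_card_nsmul s _ b hb
  simpa using this

/-- Markov's inequality. -/
lemma markov {p t : ℝ} (h0 : 0 ≤ p) (h1 : p ≤ 1) (ht : 0 < t) (f : (ι → Bool) → ℝ)
    (hf : ∀ ω, 0 ≤ f ω) : Pr p (fun ω => t ≤ f ω) ≤ Ex p f / t := by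
  rw [div_eq_mul_inv, ← Ex_mul_const]
  refine Ex_mono h0 h1 fun ω => ?_
  by_cases h : t ≤ f ω
  · rw [ind_true h, ← div_eq_mul_inv, le_div_iff₀ ht]; linarith
  · rw [ind_false h]; exact mul_nonneg (hf ω) (inv_nonneg.2 ht.le)

/-- Take the coordinates in `J` from `ω` and the others from `ω'`. -/
noncomputable def merge (J : Set ι) (ω ω' : ι → Bool) : ι → Bool :=
  fun i => if i ∈ J then ω i else ω' i

omit [Fintype ι] in
lemma merge_merge (J : Set ι) (ω ω' : ι → Bool) :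
    merge J (merge J ω ω') (merge J ω' ω) = ω := by
  funext i; unfold merge; split_ifs <;> rfl

lemma wt_merge (p : ℝ) (J : Set ι) (ω ω' : ι → Bool) :
    wt p (merge J ω ω') * wt p (merge J ω' ω) = wt p ω * wt p ω' := by
  unfold wt
  rw [← Finset.prod_mul_distrib, ← Finset.prod_mul_distrib]
  refine Finset.prod_congr rfl fun i _ => ?_
  unfold merge
  by_cases h : i ∈ J
  · simp only [h, if_true]
  · simp only [h, if_false]; ring

/-- Resampling identity. -/
lemma Ex_merge (p : ℝ) (J : Set ι) (F : (ι → Bool) → ℝ) :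
    Ex p F = Ex p (fun ω => Ex p (fun ω' => F (merge J ω ω'))) := by
  have h1 : Ex p F = ∑ x : (ι → Bool) × (ι → Bool), wt p x.1 * wt p x.2 * F x.1 := by
    rw [Fintype.sum_prod_type]
    unfold Ex
    refine Finset.sum_congr rfl fun ω _ => ?_
    have := Ex_const (ι := ι) p (wt p ω * F ω)
    unfold Ex at this
    rw [← this]
    refine Finset.sum_congr rfl fun ω' _ => by ring
  have h2 : Ex p (fun ω => Ex p (fun ω' => F (merge J ω ω'))) =
      ∑ x : (ι → Bool) × (ι → Bool), wt p x.1 * wt p x.2 * F (merge J x.1 x.2) := by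
    rw [Fintype.sum_prod_type]
    unfold Ex
    refine Finset.sum_congr rfl fun ω _ => ?_
    rw [Finset.mul_sum]
    refine Finset.sum_congr rfl fun ω' _ => by ring
  rw [h1, h2]
  let e : (ι → Bool) × (ι → Bool) ≃ (ι → Bool) × (ι → Bool) :=
    { toFun := fun x => (merge J x.1 x.2, merge J x.2 x.1)
      invFun := fun x => (merge J x.1 x.2, merge J x.2 x.1)
      left_inv := fun x => by simp [merge_merge]
      right_inv := fun x => by simp [merge_merge] }
  rw [← Equiv.sum_comp e]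
  refine Finset.sum_congr rfl fun x _ => ?_
  simp only [e, Equiv.coe_fn_mk]
  rw [wt_merge]

omit [Fintype ι] in
lemma DepOn.merge_left {β : Sort*} {J : Set ι} {f : (ι → Bool) → β} (hf : DepOn J f)
    (ω ω' : ι → Bool) : f (merge J ω ω') = f ω :=
  hf _ _ fun i hi => by simp [merge, hi]

omit [Fintype ι] in
lemma DepOn.merge_right {β : Sort*} {J : Set ι} {f : (ι → Bool) → β} (hf : DepOn Jᶜ f)
    (ω ω' : ι → Bool) : f (merge J ω ω') = f ω' :=
  hf _ _ fun i hi => by
    have : i ∉ J := hi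
    simp [merge, this]

omit [Fintype ι] in
lemma DepOn.mono {β : Sort*} {J K : Set ι} {f : (ι → Bool) → β} (hf : DepOn J f) (h : J ⊆ K) :
    DepOn K f := fun ω ω' hh => hf ω ω' fun i hi => hh i (h hi)

lemma Ex_mul_indep (p : ℝ) {J : Set ι} {f g : (ι → Bool) → ℝ} (hf : DepOn J f)
    (hg : DepOn Jᶜ g) : Ex p (fun ω => f ω * g ω) = Ex p f * Ex p g := by
  rw [Ex_merge p J]
  simp only [hf.merge_left, hg.merge_right, Ex_const_mul, Ex_mul_const]

lemma Ex_prod_indep {α : Type*} (p : ℝ) (U : Finset α) (J : α → Set ι)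
    (f : α → (ι → Bool) → ℝ) (hf : ∀ u ∈ U, DepOn (J u) (f u))
    (hJ : ∀ u ∈ U, ∀ v ∈ U, u ≠ v → Disjoint (J u) (J v)) :
    Ex p (fun ω => ∏ u ∈ U, f u ω) = ∏ u ∈ U, Ex p (f u) := by
  induction U using Finset.induction_on with
  | empty => simp [Ex_const]
  | insert a s ha ih =>
    simp only [Finset.prod_insert ha]
    rw [Ex_mul_indep p (hf a (Finset.mem_insert_self _ _)),
      ih (fun u hu => hf u (Finset.mem_insert_of_mem hu))
        (fun u hu v hv => hJ u (Finset.mem_insert_of_mem hu) v (Finset.mem_insert_of_mem hv))]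
    intro ω ω' h
    refine Finset.prod_congr rfl fun u hu => ?_
    refine hf u (Finset.mem_insert_of_mem hu) ω ω' fun i hi => h i ?_
    have hne : a ≠ u := fun e => ha (e ▸ hu)
    have := hJ a (Finset.mem_insert_self _ _) u (Finset.mem_insert_of_mem hu) hne
    exact fun hia => Set.disjoint_left.1 this hia hi

/-- Conditioning: first find a good structure `s` looking only at `J`, then avoid a bad event
depending only on the complement of `J`. -/
lemma cond_lemma {σ : Type*} {p b : ℝ} (h0 : 0 ≤ p) (h1 : p ≤ 1) (hb : 0 ≤ b) (J : Set ι)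
    (good bad : σ → (ι → Bool) → Prop) (hg : ∀ s, DepOn J (good s))
    (hbad : ∀ s ω, good s ω → DepOn Jᶜ (bad s) ∧ Pr p (bad s) ≤ b) :
    Pr p (fun ω => ∃ s, good s ω) - b ≤ Pr p (fun ω => ∃ s, good s ω ∧ ¬ bad s ω) := by
  have key : Ex p (fun ω => ind (∃ s, good s ω) - b) ≤
      Pr p (fun ω => ∃ s, good s ω ∧ ¬ bad s ω) := by
    unfold Pr
    rw [Ex_merge p J (fun ω => ind (∃ s, good s ω ∧ ¬ bad s ω))]
    refine Ex_mono h0 h1 fun ω => ?_
    by_cases h : ∃ s, good s ω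
    · rw [ind_true h]
      obtain ⟨s, hs⟩ := h
      obtain ⟨hd, hp⟩ := hbad s ω hs
      have h2 : Pr p (fun ω' => ¬ bad s ω') ≤
          Pr p (fun ω' => ∃ s, good s (merge J ω ω') ∧ ¬ bad s (merge J ω ω')) := by
        refine Pr_mono h0 h1 fun ω' h' => ⟨s, ?_, ?_⟩
        · rw [(hg s).merge_left]; exact hs
        · rw [hd.merge_right]; exact h'
      rw [Pr_not] at h2
      unfold Pr at h2 hp
      linarith
    · rw [ind_false h]
      have := Ex_nonneg h0 h1
        (f := fun ω' => ind (∃ s, good s (merge J ω ω') ∧ ¬ bad s (merge J ω ω')))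
        (fun _ => ind_nonneg _)
      linarith
  rw [Ex_sub, Ex_const] at key
  exact key

lemma pow_card_filter {α : Type*} (U : Finset α) (P : α → Prop) [DecidablePred P] (l : ℝ) :
    l ^ (U.filter P).card = ∏ u ∈ U, (1 + (l - 1) * ind (P u)) := by
  rw [← Finset.prod_const, Finset.prod_filter]
  refine Finset.prod_congr rfl fun u _ => ?_
  by_cases h : P u
  · simp [h, ind]
  · simp [h, ind]

lemma Ex_pow_card {α : Type*} (p l : ℝ) (U : Finset α) (J : α → Set ι)
    (A : α → (ι → Bool) → Prop) [∀ u ω, Decidable (A u ω)] (hA : ∀ u ∈ U, DepOn (J u) (A u))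
    (hJ : ∀ u ∈ U, ∀ v ∈ U, u ≠ v → Disjoint (J u) (J v)) :
    Ex p (fun ω => l ^ (U.filter (fun u => A u ω)).card) = ∏ u ∈ U, (1 + (l - 1) * Pr p (A u)) := by
  simp only [pow_card_filter]
  rw [Ex_prod_indep p U J (fun u ω => 1 + (l - 1) * ind (A u ω)) _ hJ]
  · refine Finset.prod_congr rfl fun u _ => ?_
    rw [Ex_add, Ex_const, Ex_const_mul]; rfl
  · intro u hu ω ω' h
    simp only [hA u hu ω ω' h]

/-- Chernoff bound, upper tail. -/
lemma chernoff_upper {α : Type*} {p q t l : ℝ} (h0 : 0 ≤ p) (h1 : p ≤ 1) (hl : 0 ≤ l)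
    (U : Finset α) (J : α → Set ι)
    (A : α → (ι → Bool) → Prop) [∀ u ω, Decidable (A u ω)] (hA : ∀ u ∈ U, DepOn (J u) (A u))
    (hJ : ∀ u ∈ U, ∀ v ∈ U, u ≠ v → Disjoint (J u) (J v)) (hq : ∀ u ∈ U, Pr p (A u) ≤ q) :
    Pr p (fun ω => t ≤ ((U.filter (fun u => A u ω)).card : ℝ)) ≤
      Real.exp ((Real.exp l - 1) * q * U.card - l * t) := by
  have hl1 : 1 ≤ Real.exp l := Real.one_le_exp hl
  have hm := markov h0 h1 (Real.exp_pos (l * t))
    (fun ω => Real.exp l ^ (U.filter (fun u => A u ω)).card) (fun ω => by positivity)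
  have h2 : Pr p (fun ω => t ≤ ((U.filter (fun u => A u ω)).card : ℝ)) ≤
      Pr p (fun ω => Real.exp (l * t) ≤ Real.exp l ^ (U.filter (fun u => A u ω)).card) := by
    refine Pr_mono h0 h1 fun ω h => ?_
    rw [← Real.exp_nat_mul, Real.exp_le_exp, mul_comm]
    exact mul_le_mul_of_nonneg_right h hl
  refine h2.trans (hm.trans ?_)
  rw [Ex_pow_card p _ U J A hA hJ, Real.exp_sub]
  refine div_le_div_of_nonneg_right ?_ (Real.exp_pos _).le
  calc ∏ u ∈ U, (1 + (Real.exp l - 1) * Pr p (A u))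
      ≤ ∏ _u ∈ U, Real.exp ((Real.exp l - 1) * q) := by
        refine Finset.prod_le_prod (fun u _ => ?_) (fun u hu => ?_)
        · have := Pr_nonneg h0 h1 (A u)
          have : 0 ≤ (Real.exp l - 1) * Pr p (A u) := mul_nonneg (by linarith) this
          linarith
        · have h3 : (Real.exp l - 1) * Pr p (A u) ≤ (Real.exp l - 1) * q :=
            mul_le_mul_of_nonneg_left (hq u hu) (by linarith)
          linarith [Real.add_one_le_exp ((Real.exp l - 1) * q)]
    _ = _ := by rw [Finset.prod_const, ← Real.exp_nat_mul]; congr 1; ring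

/-- Chernoff bound, lower tail. -/
lemma chernoff_lower {α : Type*} {p q t l : ℝ} (h0 : 0 ≤ p) (h1 : p ≤ 1) (hl : 0 ≤ l)
    (U : Finset α) (J : α → Set ι)
    (A : α → (ι → Bool) → Prop) [∀ u ω, Decidable (A u ω)] (hA : ∀ u ∈ U, DepOn (J u) (A u))
    (hJ : ∀ u ∈ U, ∀ v ∈ U, u ≠ v → Disjoint (J u) (J v)) (hq : ∀ u ∈ U, q ≤ Pr p (A u)) :
    Pr p (fun ω => ((U.filter (fun u => A u ω)).card : ℝ) ≤ t) ≤
      Real.exp (l * t - (1 - Real.exp (-l)) * q * U.card) := by
  have hl1 : Real.exp (-l) ≤ 1 := Real.exp_le_one_iff.2 (by linarith)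
  have hl0 : 0 < Real.exp (-l) := Real.exp_pos _
  have hm := markov h0 h1 (Real.exp_pos (-l * t))
    (fun ω => Real.exp (-l) ^ (U.filter (fun u => A u ω)).card) (fun ω => by positivity)
  have h2 : Pr p (fun ω => ((U.filter (fun u => A u ω)).card : ℝ) ≤ t) ≤
      Pr p (fun ω => Real.exp (-l * t) ≤ Real.exp (-l) ^ (U.filter (fun u => A u ω)).card) := by
    refine Pr_mono h0 h1 fun ω h => ?_
    rw [← Real.exp_nat_mul, Real.exp_le_exp]
    nlinarith
  refine h2.trans (hm.trans ?_)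
  rw [Ex_pow_card p _ U J A hA hJ, div_le_iff₀ (Real.exp_pos _), ← Real.exp_add]
  calc ∏ u ∈ U, (1 + (Real.exp (-l) - 1) * Pr p (A u))
      ≤ ∏ _u ∈ U, Real.exp ((Real.exp (-l) - 1) * q) := by
        refine Finset.prod_le_prod (fun u _ => ?_) (fun u hu => ?_)
        · have := Pr_le_one h0 h1 (A u)
          have := Pr_nonneg h0 h1 (A u)
          nlinarith
        · have h3 : (Real.exp (-l) - 1) * Pr p (A u) ≤ (Real.exp (-l) - 1) * q :=
            mul_le_mul_of_nonpos_left (hq u hu) (by linarith)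
          linarith [Real.add_one_le_exp ((Real.exp (-l) - 1) * q)]
    _ = _ := by rw [Finset.prod_const, ← Real.exp_nat_mul]; congr 1; ring

/-- Probability of a prescribed pattern on a set of coordinates. -/
lemma Pr_pattern (p : ℝ) (S Y : Finset ι) (hY : Y ⊆ S) :
    Pr p (fun ω => ∀ i ∈ S, (ω i = true ↔ i ∈ Y)) = p ^ Y.card * (1 - p) ^ (S.card - Y.card) := by
  have h : ∀ ω : ι → Bool, ind (∀ i ∈ S, (ω i = true ↔ i ∈ Y)) =
      ∏ i, (fun i b => ind (i ∈ S → (b = true ↔ i ∈ Y))) i (ω i) := by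
    intro ω
    by_cases hh : ∀ i ∈ S, (ω i = true ↔ i ∈ Y)
    · rw [ind_true hh]; symm
      exact Finset.prod_eq_one fun i _ => ind_true (hh i)
    · rw [ind_false hh]; symm
      push Not at hh
      obtain ⟨i, hi, hne⟩ := hh
      refine Finset.prod_eq_zero (Finset.mem_univ i) (ind_false ?_)
      intro h2; have := h2 hi; tauto
  unfold Pr
  simp only [h]
  rw [Ex_prod p (fun i b => ind (i ∈ S → (b = true ↔ i ∈ Y)))]
  have h2 : ∀ i : ι, p * ind (i ∈ S → (true = true ↔ i ∈ Y)) +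
      (1 - p) * ind (i ∈ S → (false = true ↔ i ∈ Y)) =
      (if i ∈ Y then p else 1) * (if i ∈ S \ Y then 1 - p else 1) := by
    intro i
    by_cases hy : i ∈ Y
    · simp [ind, hy, hY hy]
    · by_cases hs : i ∈ S <;> simp [ind, hy, hs]
  rw [Finset.prod_congr rfl (fun i _ => h2 i)]
  rw [Finset.prod_mul_distrib, Finset.prod_ite_mem, Finset.prod_ite_mem, Finset.univ_inter,
    Finset.univ_inter, Finset.prod_const, Finset.prod_const, Finset.card_sdiff_of_subset hY]

lemma Pr_all (p : ℝ) (S : Finset ι) : Pr p (fun ω => ∀ i ∈ S, ω i = true) = p ^ S.card := by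
  have := Pr_pattern p S S (Finset.Subset.refl _)
  simp only [Nat.sub_self, pow_zero, mul_one] at this
  rw [← this]
  congr 1; funext ω; apply propext
  constructor
  · intro h i hi; exact ⟨fun _ => hi, fun _ => h i hi⟩
  · intro h i hi; exact (h i hi).2 hi

lemma Pr_coord (p : ℝ) (i : ι) : Pr p (fun ω => ω i = true) = p := by
  have := Pr_all p ({i} : Finset ι)
  simpa using this

end Pool.Agent.H279Z.RG
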