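import Pool.Agent.H279Z.RG.Layers

/-!
The core lemma: a small set carrying a locally bipartite subgraph of large chromatic number.
-/

namespace Pool.Agent.H279Z.RG

open Finset Classical Filter Topology

theorem reservoir (L C : ℕ) (hL : 0 < L) (hC : 0 < C) {κ δ : ℝ} (hκ : 0 < κ)
    (hLκ : L * κ ≤ 1 / 2) (hδ : 0 < δ) :
    ∃ K p0 : ℝ, 0 < K ∧ 0 < p0 ∧ ∀ p : ℝ, 0 < p → p ≤ p0 → ∃ s : ℕ, 0 < s ∧ s * p ≤ κ ∧
      ∀ (V : Type) [Fintype V] (R : Finset V), K / p ≤ R.card →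
        1 - δ ≤ Pr p (fun ω : Sym2 V → Bool => ∃ S, Layers L s C R S ω) := by
  set D := L * C ^ 2 * (L + 4) with hD
  set q0 : ℝ := (κ / 4) ^ D / D.factorial / 2 with hq0
  have hq0pos : 0 < q0 := by
    have : (0 : ℝ) < D.factorial := by exact_mod_cast Nat.factorial_pos D
    positivity
  have hLR : (1 : ℝ) ≤ L := by exact_mod_cast hL
  have hlim : Tendsto (fun s : ℕ => (L : ℝ) * (Real.exp (-(s : ℝ) / 4) + Real.exp (-(s : ℝ))))
      atTop (𝓝 0) := by
    have a1 : Tendsto (fun s : ℕ => Real.exp (-(s : ℝ))) atTop (𝓝 0) :=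
      Real.tendsto_exp_neg_atTop_nhds_zero.comp tendsto_natCast_atTop_atTop
    have a2 : Tendsto (fun s : ℕ => Real.exp (-(s : ℝ) / 4)) atTop (𝓝 0) := by
      have := Real.tendsto_exp_neg_atTop_nhds_zero.comp
        ((tendsto_natCast_atTop_atTop (R := ℝ)).atTop_div_const (show (0 : ℝ) < 4 by norm_num))
      refine this.congr fun s => ?_
      simp [neg_div]
    simpa using (a2.add a1).const_mul (L : ℝ)
  obtain ⟨s0, hs0⟩ := eventually_atTop.1 (hlim.eventually (ge_mem_nhds hδ))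
  set s1 : ℕ := s0 + 2 * D + 1 with hs1
  refine ⟨κ + L * (2 * κ / q0 + 2), min (κ / 2) (κ / s1), by positivity, by positivity,
    fun p hp hpp => ?_⟩
  have hp1 : p ≤ κ / 2 := hpp.trans (min_le_left _ _)
  have hp2 : p ≤ κ / s1 := hpp.trans (min_le_right _ _)
  have hκ1 : κ ≤ 1 / 2 := by nlinarith
  have hple : p ≤ 1 := by linarith
  have hs1R : (0 : ℝ) < s1 := by positivity
  set s := ⌊κ / p⌋₊ with hs
  have hss : s1 ≤ s := by
    refine Nat.le_floor ?_
    rw [le_div_iff₀ hp]; rw [le_div_iff₀ hs1R] at hp2; linarith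
  have hsp' : (s : ℝ) * p ≤ κ := by
    have := Nat.floor_le (show 0 ≤ κ / p by positivity)
    rwa [le_div_iff₀ hp] at this
  have hsp : κ / 2 ≤ s * p := by
    have := Nat.lt_floor_add_one (κ / p)
    rw [div_lt_iff₀ hp] at this
    nlinarith
  refine ⟨s, by omega, hsp', fun V _ R hR => ?_⟩
  set N := ⌈2 * s / q0 + 1⌉₊ with hN
  obtain ⟨k, rfl⟩ : ∃ k, L = k + 1 := ⟨L - 1, by omega⟩
  have h := layers_ind (V := V) (p := p) (q0 := q0) hp.le hple s (k + 1) C D N hC hL (by omega) hD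
    hq0pos (fun σ h2 h3 => q_lower hp hple hκ s (k + 1) D (by omega) hsp hsp' hLκ σ h2 h3)
    (Nat.le_ceil _) k le_rfl R ?_
  · refine le_trans ?_ h
    have h2 := hs0 s (by omega)
    have h3 : 0 ≤ Real.exp (-(s : ℝ) / 4) + Real.exp (-(s : ℝ)) := by positivity
    push_cast at h2
    nlinarith
  · have h2 : (N : ℝ) ≤ 2 * s / q0 + 2 := by
      have := Nat.ceil_lt_add_one (show 0 ≤ 2 * (s : ℝ) / q0 + 1 by positivity)
      linarith
    have h3 : (N : ℝ) * p ≤ 2 * κ / q0 + 2 := by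
      have h4 : (2 * s / q0 + 2) * p = 2 * (s * p) / q0 + 2 * p := by ring
      have h5 : 2 * (s * p) / q0 ≤ 2 * κ / q0 := div_le_div_of_nonneg_right (by linarith) hq0pos.le
      nlinarith
    have h6 : ((s + k * N : ℕ) : ℝ) ≤ R.card := by
      refine le_trans ?_ hR
      rw [le_div_iff₀ hp]
      push_cast
      have h7 : (0 : ℝ) ≤ 2 * κ / q0 + 2 := by positivity
      have h8 : (k : ℝ) * (N * p) ≤ k * (2 * κ / q0 + 2) :=
        mul_le_mul_of_nonneg_left h3 (Nat.cast_nonneg _)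
      nlinarith
    exact_mod_cast h6

variable {V : Type*}

/-- `W ⊆ R` has at most `κ / p` vertices and carries `F`, a subgraph of the random graph which is
not `C`-colourable while all its subgraphs on at most `h` vertices are bipartite. -/
def Core (h C : ℕ) (κ p : ℝ) (R : Finset V) (x : Finset V × SimpleGraph V)
    (ω : Sym2 V → Bool) : Prop :=
  x.1 ⊆ R ∧ (x.1.card : ℝ) * p ≤ κ ∧ x.2 ≤ gr ω ∧ (∀ u v, x.2.Adj u v → u ∈ x.1) ∧
    ¬ x.2.Colorable C ∧
    ∀ A : Finset V, A.card ≤ h → ∃ φ : V → Bool, ∀ a ∈ A, ∀ b ∈ A, x.2.Adj a b → φ a ≠ φ b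

lemma depOn_core (h C : ℕ) (κ p : ℝ) (R : Finset V) (x : Finset V × SimpleGraph V) :
    DepOn (inside R) (Core h C κ p R x) := by
  refine depOn_of_imp fun ω ω' hω ⟨h1, h2, h3, h4, h5, h6⟩ => ⟨h1, h2, ?_, h4, h5, h6⟩
  intro u v huv
  have := h3 huv
  rw [gr_adj] at this ⊢
  rw [← hω _ (mem_inside.2 ⟨h1 (h4 u v huv), h1 (h4 v u huv.symm)⟩)]
  exact this

theorem core (h C : ℕ) {κ δ : ℝ} (hκ : 0 < κ) (hδ : 0 < δ) :
    ∃ K p0 : ℝ, 0 < K ∧ 0 < p0 ∧ ∀ p : ℝ, 0 < p → p ≤ p0 →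
      ∀ (V : Type) [Fintype V] (R : Finset V), K / p ≤ R.card →
        1 - δ ≤ Pr p (fun ω : Sym2 V → Bool => ∃ x, Core h C κ p R x ω) := by
  obtain ⟨L, D, hD1, hD2, hD3⟩ := exists_shift h (C + 1)
  have hL : 0 < L := by
    obtain ⟨a, ha, _⟩ := hD2 (fun _ => 0)
    omega
  have hLR : (0 : ℝ) < L := by exact_mod_cast hL
  obtain ⟨K, p0, hK, hp0, H⟩ := reservoir L (C + 1) hL (by omega) (κ := min κ (1 / 2) / L)
    (δ := δ) (by positivity) (by rw [mul_div_cancel₀ _ hLR.ne']; exact min_le_right _ _) hδ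
  refine ⟨K, min p0 1, hK, by positivity, fun p hp hpp V _ R hR => ?_⟩
  obtain ⟨s, hs, hsp, H2⟩ := H p hp (hpp.trans (min_le_left _ _))
  refine (H2 V R hR).trans (Pr_mono hp.le (hpp.trans (min_le_right _ _)) ?_)
  rintro ω ⟨S, a1, a2, a3, a4⟩
  let F : SimpleGraph V :=
    { Adj := fun u v => (gr ω).Adj u v ∧ ∃ i < L, ∃ j < L, u ∈ S i ∧ v ∈ S j ∧ (D i j ∨ D j i)
      symm := ⟨fun u v ⟨b1, i, hi, j, hj, b2, b3, b4⟩ => ⟨b1.symm, j, hj, i, hi, b3, b2, b4.symm⟩⟩
      loopless := ⟨fun u hu => hu.1.ne rfl⟩ }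
  refine ⟨((range L).biUnion S, F), ?_, ?_, fun u v huv => huv.1, ?_, ?_, ?_⟩
  · exact Finset.biUnion_subset.2 fun i hi => a1 i (Finset.mem_range.1 hi)
  · have b1 : ((range L).biUnion S).card ≤ L * s := by
      refine Finset.card_biUnion_le.trans ?_
      rw [Finset.sum_congr rfl (fun i hi => a2 i (Finset.mem_range.1 hi))]; simp
    have b2 : (((range L).biUnion S).card : ℝ) ≤ L * s := by exact_mod_cast b1
    have b3 : (L : ℝ) * (s * p) ≤ L * (min κ (1 / 2) / L) :=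
      mul_le_mul_of_nonneg_left hsp hLR.le
    rw [mul_div_cancel₀ _ hLR.ne'] at b3
    have := min_le_left κ (1 / 2)
    nlinarith
  · rintro u v ⟨_, i, hi, j, hj, b2, _⟩
    exact Finset.mem_biUnion.2 ⟨i, Finset.mem_range.2 hi, b2⟩
  · intro hcol
    obtain ⟨c⟩ := hcol.mono (Nat.le_succ C)
    have hmaj : ∀ i, ∃ k : Fin (C + 1), i < L →
        s ≤ (C + 1) * ((S i).filter (fun x => c x = k)).card := by
      intro i
      by_cases hi : i < L
      · by_contra hcon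
        push Not at hcon
        have e1 : (S i).card = ∑ k : Fin (C + 1), ((S i).filter (fun x => c x = k)).card :=
          Finset.card_eq_sum_card_fiberwise (fun x _ => Finset.mem_univ _)
        have e2 : ∑ k : Fin (C + 1), (C + 1) * ((S i).filter (fun x => c x = k)).card <
            ∑ _k : Fin (C + 1), s :=
          Finset.sum_lt_sum_of_nonempty Finset.univ_nonempty fun k _ => (hcon k).2
        rw [← Finset.mul_sum, ← e1, a2 i hi] at e2
        simp at e2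
      · exact ⟨0, fun h => absurd h hi⟩
    choose m hm using hmaj
    obtain ⟨i, hi, j, hj, hij, hmij⟩ := hD2 m
    have hne : i ≠ j := by rintro rfl; exact hD1 _ hij
    obtain ⟨x, hx, y, hy, hw⟩ := a4 i hi j hj hne _ (Finset.filter_subset _ _) _
      (Finset.filter_subset _ _) (hm i hi) (hm j hj)
    obtain ⟨hx1, hx2⟩ := Finset.mem_filter.1 hx
    obtain ⟨hy1, hy2⟩ := Finset.mem_filter.1 hy
    have hxy : x ≠ y := by
      rintro rfl
      exact Finset.disjoint_left.1 (a3 i hi j hj hne) hx1 hy1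
    have hadj : F.Adj x y := ⟨(gr_adj ω x y).2 ⟨hw, hxy⟩, i, hi, j, hj, hx1, hy1, Or.inl hij⟩
    exact c.valid hadj (by rw [hx2, hy2, hmij])
  · intro A hA
    have hlay : ∀ u : V, ∃ i : ℕ, ∀ j < L, u ∈ S j → i = j := by
      intro u
      by_cases hu : ∃ j < L, u ∈ S j
      · obtain ⟨j, hj, huj⟩ := hu
        refine ⟨j, fun j' hj' huj' => ?_⟩
        by_contra hne
        exact Finset.disjoint_left.1 (a3 j hj j' hj' hne) huj huj'
      · exact ⟨0, fun j hj huj => absurd ⟨j, hj, huj⟩ hu⟩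
    choose lay hlay using hlay
    obtain ⟨φ, hφ⟩ := hD3 (A.image lay) (Finset.card_image_le.trans hA)
    refine ⟨fun u => φ (lay u), ?_⟩
    rintro a ha b hb ⟨_, i, hi, j, hj, b2, b3, b4⟩
    have ea := hlay a i hi b2
    have eb := hlay b j hj b3
    have ma : lay a ∈ A.image lay := Finset.mem_image_of_mem _ ha
    have mb : lay b ∈ A.image lay := Finset.mem_image_of_mem _ hb
    rcases b4 with b4 | b4
    · exact hφ _ ma _ mb (by rw [ea, eb]; exact b4)
    · exact (hφ _ mb _ ma (by rw [ea, eb]; exact b4)).symm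

end Pool.Agent.H279Z.RG
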