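import Pool.Agent.H279Z.RG.Three

/-!
The chromatic threshold of a graph that is not `3`-colourable is at least `2 / 3`.
-/

namespace Pool.Agent.H279Z.RG

open Finset Classical Filter Topology

lemma cycle_subgraph {α : Type*} (H : SimpleGraph α) (h : ¬ H.IsAcyclic) :
    ∃ (F : H.Subgraph) (l : ℕ), 3 ≤ l ∧ F.verts.ncard = l ∧ F.edgeSet.ncard = l := by
  unfold SimpleGraph.IsAcyclic at h
  push Not at h
  obtain ⟨v, c, hc⟩ := h
  refine ⟨c.toSubgraph, c.length, hc.three_le_length, ?_, ?_⟩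
  · have e : c.toSubgraph.verts = (c.support.tail.toFinset : Set α) := by
      rw [SimpleGraph.Walk.verts_toSubgraph]
      ext w
      simp only [Set.mem_ofPred_eq, List.coe_toFinset]
      rw [SimpleGraph.Walk.mem_support_iff]
      constructor
      · rintro (rfl | h)
        · exact SimpleGraph.Walk.end_mem_tail_support hc.not_nil
        · exact h
      · exact Or.inr
    rw [e, Set.ncard_coe_finset, List.toFinset_card_of_nodup hc.support_nodup]
    simp
  · have e : c.toSubgraph.edgeSet = (c.edges.toFinset : Set (Sym2 α)) := by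
      rw [SimpleGraph.Walk.edgeSet_toSubgraph]
      ext w
      simp
    rw [e, Set.ncard_coe_finset, List.toFinset_card_of_nodup hc.edges_nodup]
    simp

theorem not_whp_three {k : ℕ} (H : SimpleGraph (Fin k)) (hH : ¬ H.Colorable 3) {p : ℕ → ℝ}
    (hp : ∀ n, 0 < p n ∧ p n ≤ 1) (hp0 : Tendsto p atTop (𝓝 0))
    {η : ℝ} (hη : 0 < η) (hlow : ∀ᶠ n : ℕ in atTop, (n : ℝ) ^ η ≤ p n * n) {d : ℝ}
    (hd : d < 2 / 3) (C : ℕ) :
    ¬ Tendsto (fun n : ℕ => Pr (p n) (fun ω : Sym2 (Fin n) → Bool =>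
      ∀ G : SimpleGraph (Fin n), G ≤ gr ω → ¬ H.IsContained G →
        (∀ v, d * p n * n ≤ ((G.neighborSet v).ncard : ℝ)) → G.Colorable C)) atTop (𝓝 1) := by
  intro ht
  obtain ⟨n, h1, h2⟩ := ((three_part hp hp0 hη hlow k C hd).and
    (ht.eventually (lt_mem_nhds (show (1 / 2 : ℝ) < 1 by norm_num)))).exists
  have h3 := Pr_not (p n) (fun ω : Sym2 (Fin n) → Bool => Good3 k C (d * p n * n) (gr ω))
  have h4 := Pr_mono (hp n).1.le (hp n).2 (A := fun ω : Sym2 (Fin n) → Bool =>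
      ∀ G : SimpleGraph (Fin n), G ≤ gr ω → ¬ H.IsContained G →
        (∀ v, d * p n * n ≤ ((G.neighborSet v).ncard : ℝ)) → G.Colorable C)
    (B := fun ω : Sym2 (Fin n) → Bool => ¬ Good3 k C (d * p n * n) (gr ω)) (by
      rintro ω hω ⟨G, a1, a2, a3, a4⟩
      refine a4 (hω G a1 ?_ a3)
      rintro ⟨f⟩
      obtain ⟨ψ, hψ⟩ := a2 (Finset.univ.image f) (Finset.card_image_le.trans (by simp))
      apply hH
      exact ⟨SimpleGraph.Coloring.mk (fun a => ψ (f a)) (fun {a b} hab =>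
        hψ _ (Finset.mem_image_of_mem _ (Finset.mem_univ a)) _
          (Finset.mem_image_of_mem _ (Finset.mem_univ b)) (f.toHom.map_adj hab))⟩)
  linarith

lemma low_of_ratio {p : ℕ → ℝ} (hp : ∀ n, 0 < p n) {a : ℝ}
    (h : Tendsto (fun n : ℕ => (n : ℝ) ^ (-a) / p n) atTop (𝓝 0)) :
    ∀ᶠ n : ℕ in atTop, (n : ℝ) ^ (1 - a) ≤ p n * n := by
  filter_upwards [h.eventually (ge_mem_nhds (show (0 : ℝ) < 1 by norm_num)),
    eventually_gt_atTop 0] with n hn hn0
  have hnR : (0 : ℝ) < n := by exact_mod_cast hn0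
  rw [div_le_one (hp n)] at hn
  rw [sub_eq_neg_add, Real.rpow_add hnR, Real.rpow_one]
  exact mul_le_mul_of_nonneg_right hn hnR.le

theorem four_main :
    ¬ (∃ k : ℕ, ∃ H : SimpleGraph (Fin k), H.chromaticNumber = 4 ∧
      ∃ p : ℕ → ℝ, (∀ n, 0 < p n ∧ p n ≤ 1) ∧
        (∀ F : H.Subgraph, 3 ≤ F.verts.ncard → 2 ≤ F.edgeSet.ncard →
          Tendsto (fun n : ℕ => (n : ℝ) ^ (-(((F.verts.ncard : ℝ) - 2) /
            ((F.edgeSet.ncard : ℝ) - 1))) / p n) atTop (nhds 0)) ∧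
        Tendsto (fun n : ℕ => p n * Real.sqrt n) atTop (nhds 0) ∧
        ∃ d : ℝ, d < 2 / 3 ∧ ∃ C : ℕ,
          Tendsto (fun n : ℕ => ∑ Γ : SimpleGraph (Fin n),
            if (∀ G : SimpleGraph (Fin n), G ≤ Γ → ¬ H.IsContained G →
                (∀ v, d * p n * n ≤ ((G.neighborSet v).ncard : ℝ)) → G.Colorable C)
            then p n ^ Γ.edgeSet.ncard * (1 - p n) ^ (n.choose 2 - Γ.edgeSet.ncard)
            else 0) atTop (nhds 1)) := by
  rintro ⟨k, H, hχ, p, hp, hF, hsq, d, hd, C, ht⟩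
  have hH : ¬ H.Colorable 3 := by
    intro h
    have := h.chromaticNumber_le
    rw [hχ] at this
    norm_num at this
  have hac : ¬ H.IsAcyclic := fun h => hH (h.colorable_two.mono (by norm_num))
  obtain ⟨F, l, hl, e1, e2⟩ := cycle_subgraph H hac
  have h1 := hF F (by omega) (by omega)
  rw [e1, e2] at h1
  have hlR : (3 : ℝ) ≤ l := by exact_mod_cast hl
  have hη : 0 < 1 - ((l : ℝ) - 2) / ((l : ℝ) - 1) := by
    rw [sub_pos, div_lt_one (by linarith)]; linarith
  have hp0 : Tendsto p atTop (𝓝 0) := by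
    refine squeeze_zero' (Eventually.of_forall fun n => (hp n).1.le) ?_ hsq
    filter_upwards [eventually_ge_atTop 1] with n hn
    have : (1 : ℝ) ≤ Real.sqrt n := Real.one_le_sqrt.2 (by exact_mod_cast hn)
    nlinarith [(hp n).1]
  refine not_whp_three H hH hp hp0 hη (low_of_ratio (fun n => (hp n).1) h1) hd C ?_
  refine ht.congr fun n => ?_
  exact transfer n (p n) (fun Γ => ∀ G : SimpleGraph (Fin n), G ≤ Γ → ¬ H.IsContained G →
    (∀ v, d * p n * n ≤ ((G.neighborSet v).ncard : ℝ)) → G.Colorable C)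

end Pool.Agent.H279Z.RG
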