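import Pool.Agent.H279Z.RG.Basic

/-!
The random graph as a Bernoulli product space, neighbourhood patterns.
-/

namespace Pool.Agent.H279Z.RG

open Finset Classical

variable {V : Type*}

/-- The graph of a configuration. -/
def gr (ω : Sym2 V → Bool) : SimpleGraph V := SimpleGraph.fromEdgeSet {e | ω e = true}

lemma gr_adj (ω : Sym2 V → Bool) (u v : V) : (gr ω).Adj u v ↔ ω s(u, v) = true ∧ u ≠ v := by
  simp [gr, SimpleGraph.fromEdgeSet_adj]

lemma transfer (n : ℕ) (p : ℝ) (P : SimpleGraph (Fin n) → Prop) [DecidablePred P] :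
    (∑ Γ : SimpleGraph (Fin n), if P Γ then
      p ^ Γ.edgeSet.ncard * (1 - p) ^ (n.choose 2 - Γ.edgeSet.ncard) else 0) =
      Pr p (fun ω : Sym2 (Fin n) → Bool => P (gr ω)) := by
  have h1 : ∀ ω : Sym2 (Fin n) → Bool, ind (P (gr ω)) =
      ∑ Γ : SimpleGraph (Fin n), ind (P Γ) * ind (gr ω = Γ) := by
    intro ω
    rw [Finset.sum_eq_single (gr ω)]
    · rw [ind_true (rfl : gr ω = gr ω), mul_one]
    · intro Γ _ hne
      rw [ind_false (P := gr ω = Γ) (fun h => hne h.symm), mul_zero]
    · simp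
  unfold Pr
  simp only [h1]
  rw [Ex_sum]
  refine Finset.sum_congr rfl fun Γ _ => ?_
  rw [Ex_const_mul]
  have h2 : Pr p (fun ω : Sym2 (Fin n) → Bool => gr ω = Γ) =
      p ^ Γ.edgeSet.ncard * (1 - p) ^ (n.choose 2 - Γ.edgeSet.ncard) := by
    have h3 := Pr_pattern p (⊤ : SimpleGraph (Fin n)).edgeFinset Γ.edgeFinset
      (SimpleGraph.edgeFinset_mono le_top)
    rw [SimpleGraph.card_edgeFinset_top_eq_card_choose_two, Fintype.card_fin] at h3
    have h4 : Γ.edgeSet.ncard = Γ.edgeFinset.card := by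
      rw [← Set.ncard_coe_finset, SimpleGraph.coe_edgeFinset]
    rw [h4]
    convert h3 using 2
    funext ω; apply propext
    constructor
    · rintro rfl e he
      induction e using Sym2.ind with
      | _ u v =>
        simp only [SimpleGraph.mem_edgeFinset, SimpleGraph.mem_edgeSet, SimpleGraph.top_adj] at he ⊢
        rw [gr_adj]; tauto
    · intro h
      ext u v
      rw [gr_adj]
      by_cases huv : u = v
      · subst huv; simp
      · have := h s(u, v) (by simpa using huv)
        simp only [SimpleGraph.mem_edgeFinset, SimpleGraph.mem_edgeSet] at this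
        tauto
  unfold Pr at h2
  rw [h2]
  by_cases hP : P Γ
  · simp [ind, hP]
  · simp [ind, hP]

/-- Neighbours of `u` in `S` (read off the configuration). -/
noncomputable def nb (ω : Sym2 V → Bool) (u : V) (S : Finset V) : Finset V :=
  S.filter (fun x => ω s(u, x) = true)

lemma sym2_inj (u : V) : Function.Injective (fun x : V => s(u, x)) := by
  intro x y h
  simpa using Sym2.congr_right.1 h

variable [Fintype V]

lemma Pr_nb_eq (p : ℝ) (u : V) (S Y : Finset V) (hY : Y ⊆ S) :
    Pr p (fun ω : Sym2 V → Bool => nb ω u S = Y) = p ^ Y.card * (1 - p) ^ (S.card - Y.card) := by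
  have h := Pr_pattern p (S.image (fun x => s(u, x))) (Y.image (fun x => s(u, x)))
    (Finset.image_subset_image hY)
  rw [Finset.card_image_of_injective _ (sym2_inj u),
    Finset.card_image_of_injective _ (sym2_inj u)] at h
  rw [← h]
  congr 1; funext ω; apply propext
  constructor
  · rintro rfl i hi
    obtain ⟨x, hx, rfl⟩ := Finset.mem_image.1 hi
    rw [(sym2_inj u).mem_finset_image]
    simp [nb, hx]
  · intro h
    ext x
    simp only [nb, Finset.mem_filter]
    constructor
    · rintro ⟨hx, hw⟩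
      have := (h _ (Finset.mem_image_of_mem _ hx)).1 hw
      rwa [(sym2_inj u).mem_finset_image] at this
    · intro hx
      exact ⟨hY hx, (h _ (Finset.mem_image_of_mem _ (hY hx))).2 (Finset.mem_image_of_mem _ hx)⟩

lemma Pr_nb_mem (p : ℝ) (u : V) (S S' : Finset V) (hS : S' ⊆ S) (D : ℕ) :
    Pr p (fun ω : Sym2 V → Bool => nb ω u S ∈ S'.powersetCard D) =
      (S'.card.choose D : ℝ) * (p ^ D * (1 - p) ^ (S.card - D)) := by
  have h1 : ∀ ω : Sym2 V → Bool, ind (nb ω u S ∈ S'.powersetCard D) =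
      ∑ Y ∈ S'.powersetCard D, ind (nb ω u S = Y) := by
    intro ω
    by_cases h : nb ω u S ∈ S'.powersetCard D
    · rw [ind_true h, Finset.sum_eq_single_of_mem _ h, ind_true rfl]
      intro Y _ hne; exact ind_false (fun e => hne e.symm)
    · rw [ind_false h]; symm
      refine Finset.sum_eq_zero fun Y hY => ind_false ?_
      rintro rfl; exact h hY
  unfold Pr
  simp only [h1]
  rw [Ex_sum, ← Finset.card_powersetCard, ← nsmul_eq_mul, ← Finset.sum_const]
  refine Finset.sum_congr rfl fun Y hY => ?_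
  obtain ⟨hY1, hY2⟩ := Finset.mem_powersetCard.1 hY
  have := Pr_nb_eq p u S Y (hY1.trans hS)
  rw [hY2] at this
  exact this

omit [Fintype V] in
lemma depOn_nb (u : V) (S : Finset V) :
    DepOn {e | ∃ x ∈ S, e = s(u, x)} (fun ω : Sym2 V → Bool => nb ω u S) := by
  intro ω ω' h
  unfold nb
  refine Finset.filter_congr fun x hx => ?_
  rw [h _ ⟨x, hx, rfl⟩]

/-- Lower tail for the number of neighbours in a set. -/
lemma Pr_deg_low {p ε : ℝ} (h0 : 0 ≤ p) (h1 : p ≤ 1) (hε : 0 < ε) (hε1 : ε ≤ 1) (u : V)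
    (S : Finset V) :
    Pr p (fun ω : Sym2 V → Bool => ((nb ω u S).card : ℝ) ≤ (1 - ε) * p * S.card) ≤
      Real.exp (-(ε ^ 2 / 4) * p * S.card) := by
  have h := chernoff_lower (p := p) (q := p) (t := (1 - ε) * p * S.card) (l := ε / 2) h0 h1
    (by linarith) S (fun x => {s(u, x)}) (fun x ω => ω s(u, x) = true)
    (fun x _ ω ω' h => by simp only [h _ rfl])
    (fun x _ y _ hxy => by
      rw [Set.disjoint_singleton]; exact fun e => hxy (sym2_inj u e))
    (fun x _ => (Pr_coord p _).ge)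
  refine h.trans (Real.exp_le_exp.2 ?_)
  have h2 : Real.exp (-(ε / 2)) ≤ 1 - ε / 2 + (ε / 2) ^ 2 := by
    have h3 : 1 + ε / 2 ≤ Real.exp (ε / 2) := by linarith [Real.add_one_le_exp (ε / 2)]
    rw [Real.exp_neg, inv_le_iff_one_le_mul₀ (Real.exp_pos _)]
    have h4 : 0 ≤ 1 - ε / 2 + (ε / 2) ^ 2 := by nlinarith
    nlinarith [mul_le_mul_of_nonneg_left h3 h4, pow_pos hε 3]
  have h5 : 0 ≤ p * S.card := mul_nonneg h0 (Nat.cast_nonneg _)
  nlinarith [mul_le_mul_of_nonneg_right h2 h5]

end Pool.Agent.H279Z.RG
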