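import Mathlib

/-!
Iterated line digraphs of transitive tournaments: graphs of large chromatic number all of whose
small subgraphs are bipartite.
-/

namespace Pool.Agent.H279Z.RG

open Finset Classical

lemma exists_shift_aux (h : ℕ) : ∀ (κ : Type) [Fintype κ], ∃ (V : Type) (_ : Fintype V)
    (D : V → V → Prop) (r : V → ℕ), (∀ a b, D a b → r a < r b) ∧
    (∀ c : V → κ, ∃ a b, D a b ∧ c a = c b) ∧
    (∀ A : Finset V, A.card ≤ h → ∃ φ : V → Bool, ∀ a ∈ A, ∀ b ∈ A, D a b → φ a ≠ φ b) := by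
  induction h with
  | zero =>
    intro κ _
    refine ⟨Fin (Fintype.card κ + 1), inferInstance, fun a b => a < b, fun a => a.val,
      fun a b h => h, fun c => ?_, fun A hA => ⟨fun _ => true, fun a ha => ?_⟩⟩
    · obtain ⟨a, b, hab, hc⟩ := Fintype.exists_ne_map_eq_of_card_lt c (by simp)
      rcases lt_or_gt_of_ne hab with h | h
      · exact ⟨a, b, h, hc⟩
      · exact ⟨b, a, h, hc.symm⟩
    · have : A = ∅ := Finset.card_eq_zero.1 (by omega)
      simp [this] at ha
  | succ h ih =>
    intro κ _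
    obtain ⟨V, _, D, r, hr, hc, hb⟩ := ih (Finset κ)
    refine ⟨{x : V × V // D x.1 x.2}, inferInstance, fun x y => x.1.2 = y.1.1, fun x => r x.1.1,
      fun x y hxy => ?_, fun c => ?_, fun A hA => ?_⟩
    · have := hr _ _ x.2
      rw [hxy] at this; exact this
    · obtain ⟨a, b, hab, he⟩ := hc (fun a => Finset.univ.filter
        (fun k => ∃ y : {x : V × V // D x.1 x.2}, y.1.1 = a ∧ c y = k))
      have h1 : c ⟨(a, b), hab⟩ ∈ Finset.univ.filter
          (fun k => ∃ y : {x : V × V // D x.1 x.2}, y.1.1 = a ∧ c y = k) := by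
        simp only [Finset.mem_filter, Finset.mem_univ, true_and]
        exact ⟨⟨(a, b), hab⟩, rfl, rfl⟩
      rw [he] at h1
      simp only [Finset.mem_filter, Finset.mem_univ, true_and] at h1
      obtain ⟨y, hy, hcy⟩ := h1
      exact ⟨⟨(a, b), hab⟩, y, hy.symm, hcy.symm⟩
    · rcases A.eq_empty_or_nonempty with rfl | hne
      · exact ⟨fun _ => true, by simp⟩
      obtain ⟨z, hz, hmax⟩ := A.exists_max_image (fun x => r x.1.2) hne
      let M : Finset V := (A.erase z).image (fun x => x.1.2)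
      have hM : M.card ≤ h := by
        have h1 : M.card ≤ (A.erase z).card := Finset.card_image_le
        rw [Finset.card_erase_of_mem hz] at h1
        omega
      obtain ⟨φ, hφ⟩ := hb M hM
      refine ⟨fun x => if x.1.2 ∈ M then φ x.1.2 else !φ x.1.1, fun x hx y hy hxy => ?_⟩
      have hxz : x ≠ z := by
        rintro rfl
        have h1 := hmax y hy
        have h2 := hr _ _ y.2
        simp only at h1 hxy
        rw [← hxy] at h2
        omega
      have hxM : x.1.2 ∈ M := Finset.mem_image.2 ⟨x, Finset.mem_erase.2 ⟨hxz, hx⟩, rfl⟩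
      simp only [hxM, if_true]
      split_ifs with hyM
      · refine hφ _ hxM _ hyM ?_
        have := y.2
        simp only at hxy
        rw [hxy]; exact this
      · simp only at hxy
        rw [← hxy]
        cases φ x.1.2 <;> simp

lemma exists_shift (h C : ℕ) : ∃ (L : ℕ) (D : ℕ → ℕ → Prop), (∀ a, ¬ D a a) ∧
    (∀ c : ℕ → Fin C, ∃ a < L, ∃ b < L, D a b ∧ c a = c b) ∧
    (∀ A : Finset ℕ, A.card ≤ h → ∃ φ : ℕ → Bool, ∀ a ∈ A, ∀ b ∈ A, D a b → φ a ≠ φ b) := by
  obtain ⟨V, _, D, r, hr, hc, hb⟩ := exists_shift_aux h (Fin C)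
  let e := Fintype.equivFin V
  refine ⟨Fintype.card V, fun a b => ∃ x y, D x y ∧ (e x).val = a ∧ (e y).val = b, ?_, ?_, ?_⟩
  · rintro a ⟨x, y, hxy, hx, hy⟩
    have : x = y := e.injective (Fin.ext (hx.trans hy.symm))
    subst this
    exact lt_irrefl _ (hr _ _ hxy)
  · intro c
    obtain ⟨x, y, hxy, h⟩ := hc (fun x => c (e x).val)
    exact ⟨_, (e x).2, _, (e y).2, ⟨x, y, hxy, rfl, rfl⟩, h⟩
  · intro A hA
    let A' : Finset V := Finset.univ.filter (fun x => (e x).val ∈ A)
    have hA' : A'.card ≤ A.card := by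
      refine Finset.card_le_card_of_injOn (fun x => (e x).val) (fun x hx => ?_) (fun x _ y _ hxy => ?_)
      · simpa [A'] using hx
      · exact e.injective (Fin.ext hxy)
    obtain ⟨φ, hφ⟩ := hb A' (hA'.trans hA)
    refine ⟨fun a => if ha : a < Fintype.card V then φ (e.symm ⟨a, ha⟩) else true, ?_⟩
    rintro a ha b hb' ⟨x, y, hxy, rfl, rfl⟩
    simp only [Fin.is_lt, dif_pos, Fin.eta, Equiv.symm_apply_apply]
    exact hφ x (by simpa [A'] using ha) y (by simpa [A'] using hb') hxy

end Pool.Agent.H279Z.RG
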