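import Pool.Agent.H279Z.RG.Step
import Pool.Agent.H279Z.RG.Shift

/-!
Inside a set of `K / p` vertices the random graph has, with high probability, a set of at most
`κ / p` vertices carrying a subgraph of large chromatic number whose small subgraphs are bipartite.
-/

namespace Pool.Agent.H279Z.RG

open Finset Classical

variable {V : Type*}

/-- The pairs inside `R`. -/
def inside (R : Finset V) : Set (Sym2 V) := {e | ∀ v ∈ e, v ∈ R}

lemma mem_inside {R : Finset V} {x y : V} : s(x, y) ∈ inside R ↔ x ∈ R ∧ y ∈ R := by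
  simp [inside]

/-- `k` pairwise joined layers of size `s` inside `R`. -/
def Layers (k s C : ℕ) (R : Finset V) (S : ℕ → Finset V) (ω : Sym2 V → Bool) : Prop :=
  (∀ i < k, S i ⊆ R) ∧ (∀ i < k, (S i).card = s) ∧
  (∀ i < k, ∀ j < k, i ≠ j → Disjoint (S i) (S j)) ∧
  ∀ i < k, ∀ j < k, i ≠ j → Joined s C (S i) (S j) ω

lemma Joined.symm {s C : ℕ} {S S' : Finset V} {ω : Sym2 V → Bool} (h : Joined s C S S' ω) :
    Joined s C S' S ω := by
  intro T hT T' hT' h1 h2
  obtain ⟨x, hx, y, hy, hw⟩ := h T' hT' T hT h2 h1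
  exact ⟨y, hy, x, hx, by rw [Sym2.eq_swap]; exact hw⟩

lemma Joined.congr {s C : ℕ} {S S' : Finset V} {ω ω' : Sym2 V → Bool}
    (hω : ∀ x ∈ S, ∀ y ∈ S', ω s(x, y) = ω' s(x, y)) (h : Joined s C S S' ω) :
    Joined s C S S' ω' := by
  intro T hT T' hT' h1 h2
  obtain ⟨x, hx, y, hy, hw⟩ := h T hT T' hT' h1 h2
  exact ⟨x, hx, y, hy, by rw [← hω x (hT hx) y (hT' hy)]; exact hw⟩

lemma depOn_of_imp {ι : Type*} {J : Set ι} {A : (ι → Bool) → Prop}
    (h : ∀ ω ω' : ι → Bool, (∀ i ∈ J, ω i = ω' i) → A ω → A ω') : DepOn J A :=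
  fun ω ω' hh => propext ⟨h ω ω' hh, h ω' ω fun i hi => (hh i hi).symm⟩

lemma depOn_layers (k s C : ℕ) (R : Finset V) (S : ℕ → Finset V) :
    DepOn (inside R) (Layers k s C R S) := by
  refine depOn_of_imp fun ω ω' h ⟨h1, h2, h3, h4⟩ => ⟨h1, h2, h3, fun i hi j hj hij => ?_⟩
  exact (h4 i hi j hj hij).congr fun x hx y hy => h _ (mem_inside.2 ⟨h1 i hi hx, h1 j hj hy⟩)

variable [Fintype V]

lemma layers_ind {p q0 : ℝ} (h0 : 0 ≤ p) (h1 : p ≤ 1) (s L C D N : ℕ) (hC : 0 < C) (hL : 0 < L)
    (hs : 0 < s) (hD : D = L * C ^ 2 * (L + 4)) (hq0 : 0 < q0)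
    (hq : ∀ σ : ℕ, s ≤ σ → σ ≤ L * s → q0 ≤ (σ.choose D : ℝ) * (p ^ D * (1 - p) ^ (σ - D)))
    (hN : 2 * s / q0 + 1 ≤ N) (k : ℕ) (hk : k + 1 ≤ L) :
    ∀ R : Finset V, s + k * N ≤ R.card →
      1 - k * (Real.exp (-(s : ℝ) / 4) + Real.exp (-(s : ℝ))) ≤
        Pr p (fun ω : Sym2 V → Bool => ∃ S, Layers (k + 1) s C R S ω) := by
  induction k with
  | zero =>
    intro R hR
    obtain ⟨S0, hS0, hc⟩ := Finset.exists_subset_card_eq (show s ≤ R.card by omega)
    have : Pr p (fun _ : Sym2 V → Bool => True) ≤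
        Pr p (fun ω : Sym2 V → Bool => ∃ S, Layers (0 + 1) s C R S ω) := by
      refine Pr_mono h0 h1 fun ω _ => ⟨fun _ => S0, fun _ _ => hS0, fun _ _ => hc, ?_, ?_⟩
      · intro i hi j hj hij; omega
      · intro i hi j hj hij; omega
    have h2 : Pr p (fun _ : Sym2 V → Bool => True) = 1 := by
      unfold Pr; simp only [ind_true trivial]; exact Ex_const _ _
    simp only [Nat.cast_zero, zero_mul, sub_zero]
    linarith
  | succ k ih =>
    intro R hR
    obtain ⟨U, hU, hUc⟩ := Finset.exists_subset_card_eq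
      (show N ≤ R.card by nlinarith [Nat.zero_le (k * N)])
    have hR1 : s + k * N ≤ (R \ U).card := by
      rw [Finset.card_sdiff_of_subset hU, hUc]
      have : s + (k + 1) * N = s + k * N + N := by ring
      omega
    have ih' := ih (by omega) (R \ U) hR1
    have hcond := cond_lemma (p := p) (b := Real.exp (-(s : ℝ) / 4) + Real.exp (-(s : ℝ))) h0 h1
      (by positivity) (inside (R \ U)) (fun S ω => Layers (k + 1) s C (R \ U) S ω)
      (fun S ω => ¬ ∃ S' ⊆ U, S'.card = s ∧ Joined s C ((range (k + 1)).biUnion S) S' ω)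
      (fun S => depOn_layers _ _ _ _ S) ?_
    · refine le_trans ?_ (hcond.trans (Pr_mono h0 h1 ?_))
      · push_cast; linarith
      · rintro ω ⟨S, ⟨a1, a2, a3, a4⟩, hb⟩
        obtain ⟨S', b1, b2, b3⟩ := not_not.1 hb
        have hdis : ∀ i < k + 1, Disjoint (S i) S' := fun i hi =>
          Finset.disjoint_left.2 fun x hx hx' => (Finset.mem_sdiff.1 (a1 i hi hx)).2 (b1 hx')
        have hj : ∀ i < k + 1, Joined s C (S i) S' ω := fun i hi T hT T' hT' =>
          b3 T (hT.trans (Finset.subset_biUnion_of_mem S (Finset.mem_range.2 hi))) T' hT'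
        refine ⟨fun i => if i < k + 1 then S i else S', ?_, ?_, ?_, ?_⟩
        · intro i _
          dsimp only
          split_ifs with h
          · exact (a1 i h).trans Finset.sdiff_subset
          · exact b1.trans hU
        · intro i _
          dsimp only
          split_ifs with h
          · exact a2 i h
          · exact b2
        · intro i hi j hj' hij
          dsimp only
          split_ifs with h h' h'
          · exact a3 i h j h' hij
          · exact hdis i h
          · exact (hdis j h').symm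
          · omega
        · intro i hi j hj' hij
          dsimp only
          split_ifs with h h' h'
          · exact a4 i h j h' hij
          · exact hj i h
          · exact (hj j h').symm
          · omega
    · rintro S ω ⟨a1, a2, a3, a4⟩
      set B := (range (k + 1)).biUnion S with hB
      have hBsub : B ⊆ R \ U := Finset.biUnion_subset.2 fun i hi => a1 i (Finset.mem_range.1 hi)
      have hBc : B.card = (k + 1) * s := by
        rw [hB, Finset.card_biUnion]
        · rw [Finset.sum_congr rfl (fun i hi => a2 i (Finset.mem_range.1 hi))]; simp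
        · intro i hi j hj hij
          exact a3 i (by simpa using hi) j (by simpa using hj) hij
      refine ⟨?_, ?_⟩
      · refine depOn_of_imp fun ω ω' h hn ⟨S', c1, c2, c3⟩ => hn ⟨S', c1, c2, c3.congr ?_⟩
        intro x _ y hy
        refine (h _ ?_).symm
        intro hin
        exact (Finset.mem_sdiff.1 (mem_inside.1 hin).2).2 (c1 hy)
      · have hle : B.card ≤ L * s := by rw [hBc]; exact Nat.mul_le_mul_right _ (by omega)
        have hge : s ≤ B.card := by rw [hBc]; nlinarith [Nat.zero_le (k * s)]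
        set q : ℝ := (B.card.choose D : ℝ) * (p ^ D * (1 - p) ^ (B.card - D)) with hqdef
        have hq1 : q0 ≤ q := hq _ hge hle
        have hqpos : 0 < q := by linarith
        have hq2 : q ≤ 1 := by
          obtain ⟨x, _⟩ := Finset.card_pos.1 (show 0 < B.card by omega)
          rw [hqdef, ← Pr_nb_mem p x B B (Finset.Subset.refl _) D]
          exact Pr_le_one h0 h1 _
        have hsR : (1 : ℝ) ≤ s := by exact_mod_cast hs
        have hN' : ⌈2 * s / q⌉₊ ≤ U.card := by
          rw [hUc, Nat.ceil_le]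
          have : 2 * (s : ℝ) / q ≤ 2 * s / q0 := div_le_div_of_nonneg_left (by linarith) hq0 hq1
          linarith
        obtain ⟨U', hU', hU'c⟩ := Finset.exists_subset_card_eq hN'
        have hdisj : Disjoint B U' :=
          Finset.disjoint_left.2 fun x hx hx' => (Finset.mem_sdiff.1 (hBsub hx)).2 (hU' hx')
        have hst := step (p := p) (q := q) h0 h1 B U' hdisj s L C D hC hL hs hle hD hqdef ?_ ?_
        · refine le_trans (Pr_mono h0 h1 ?_) hst
          rintro ω hn ⟨S', c1, c2, c3⟩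
          exact hn ⟨S', c1.trans hU', c2, c3⟩
        · rw [hU'c]
          have := Nat.le_ceil (2 * (s : ℝ) / q)
          rw [div_le_iff₀ hqpos] at this
          linarith
        · rw [hU'c]
          have h3 := Nat.ceil_lt_add_one (show 0 ≤ 2 * (s : ℝ) / q by positivity)
          have h4 : q * (2 * s / q + 1) = 2 * s + q := by field_simp
          nlinarith

omit [Fintype V] in
lemma q_lower {p κ : ℝ} (h0 : 0 < p) (h1 : p ≤ 1) (hκ : 0 < κ) (s L D : ℕ) (hsD : 2 * D ≤ s)
    (hsp : κ / 2 ≤ s * p) (hsp' : s * p ≤ κ) (hLκ : L * κ ≤ 1 / 2) (σ : ℕ) (h2 : s ≤ σ)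
    (h3 : σ ≤ L * s) :
    (κ / 4) ^ D / D.factorial / 2 ≤ (σ.choose D : ℝ) * (p ^ D * (1 - p) ^ (σ - D)) := by
  have a1 : (((σ + 1 - D : ℕ) : ℝ)) ^ D / D.factorial ≤ σ.choose D := Nat.pow_le_choose D σ
  have a2 : κ / 4 ≤ ((σ + 1 - D : ℕ) : ℝ) * p := by
    have : s ≤ 2 * (σ + 1 - D) := by omega
    have : (s : ℝ) ≤ 2 * ((σ + 1 - D : ℕ) : ℝ) := by exact_mod_cast this
    nlinarith
  have a3 : (κ / 4) ^ D ≤ (((σ + 1 - D : ℕ) : ℝ)) ^ D * p ^ D := by
    rw [← mul_pow]; exact pow_le_pow_left₀ (by positivity) a2 D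
  have a4 : (1 / 2 : ℝ) ≤ (1 - p) ^ (σ - D) := by
    have b1 := one_add_mul_le_pow (show (-2 : ℝ) ≤ -p by linarith) (σ - D)
    have b2 : ((σ - D : ℕ) : ℝ) ≤ L * s := by exact_mod_cast (show σ - D ≤ L * s by omega)
    have b3 : (L : ℝ) * (s * p) ≤ L * κ := mul_le_mul_of_nonneg_left hsp' (Nat.cast_nonneg _)
    rw [sub_eq_add_neg]
    nlinarith
  have hf : (0 : ℝ) < D.factorial := by exact_mod_cast Nat.factorial_pos D
  have a5 : (κ / 4) ^ D / D.factorial ≤ (σ.choose D : ℝ) * p ^ D := by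
    calc (κ / 4) ^ D / D.factorial ≤ (((σ + 1 - D : ℕ) : ℝ)) ^ D * p ^ D / D.factorial :=
          div_le_div_of_nonneg_right a3 hf.le
      _ = (((σ + 1 - D : ℕ) : ℝ)) ^ D / D.factorial * p ^ D := by ring
      _ ≤ _ := mul_le_mul_of_nonneg_right a1 (by positivity)
  have a6 : 0 ≤ (σ.choose D : ℝ) * p ^ D := by positivity
  calc (κ / 4) ^ D / D.factorial / 2 ≤ (σ.choose D : ℝ) * p ^ D * (1 / 2) := by linarith
    _ ≤ (σ.choose D : ℝ) * p ^ D * (1 - p) ^ (σ - D) := mul_le_mul_of_nonneg_left a4 a6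
    _ = _ := by ring

end Pool.Agent.H279Z.RG
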