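import Pool.Agent.H279Z.RG.Core

/-!
Balanced partitions and degree events.
-/

namespace Pool.Agent.H279Z.RG

open Finset Classical Filter Topology

/-- The residue class `c` modulo `r`, outside `R`. -/
noncomputable def part (n r : ℕ) (R : Finset (Fin n)) (c : ℕ) : Finset (Fin n) :=
  Finset.univ.filter (fun v => v.val % r = c ∧ v ∉ R)

lemma part_card (n r : ℕ) (R : Finset (Fin n)) (c : ℕ) (hc : c < r) :
    (n : ℝ) / r - 1 - R.card ≤ (part n r R c).card := by
  have hr : 0 < r := by omega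
  have h1 : n / r ≤ (Finset.univ.filter (fun v : Fin n => v.val % r = c)).card := by
    have hb : ∀ k : Fin (n / r), r * k.val + c < n := by
      intro k
      have h2 := k.2
      have h3 := Nat.mul_div_le n r
      have h4 : r * (k.val + 1) ≤ r * (n / r) := Nat.mul_le_mul_left _ h2
      nlinarith
    calc n / r = (Finset.univ : Finset (Fin (n / r))).card := by simp
      _ ≤ _ := by
        refine Finset.card_le_card_of_injOn (fun k => ⟨r * k.val + c, hb k⟩) ?_ ?_
        · intro k _
          simp [Nat.mod_eq_of_lt hc]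
        · intro k _ k' _ h
          have h5 : r * k.val + c = r * k'.val + c := by simpa using h
          exact Fin.ext (Nat.eq_of_mul_eq_mul_left hr (by omega))
  have h2 : (Finset.univ.filter (fun v : Fin n => v.val % r = c)).card ≤
      (part n r R c).card + R.card := by
    refine le_trans (Finset.card_le_card ?_) (Finset.card_union_le _ _)
    intro v hv
    by_cases h : v ∈ R
    · exact Finset.mem_union_right _ h
    · refine Finset.mem_union_left _ ?_
      simp only [part, Finset.mem_filter, Finset.mem_univ, true_and] at hv ⊢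
      exact ⟨hv, h⟩
  have h3 : (n : ℝ) / r - 1 ≤ ((n / r : ℕ) : ℝ) := by
    have h4 := Nat.lt_floor_add_one ((n : ℝ) / r)
    rw [Nat.floor_div_natCast, Nat.floor_natCast] at h4
    linarith
  have h4 : ((n / r : ℕ) : ℝ) ≤ (part n r R c).card + R.card := by exact_mod_cast h1.trans h2
  linarith

lemma deg_event {p ε m : ℝ} (h0 : 0 ≤ p) (h1 : p ≤ 1) (hε : 0 < ε) (hε1 : ε ≤ 1) (n r : ℕ)
    (R : Finset (Fin n)) (hm : ∀ c < r, m ≤ (part n r R c).card) :
    Pr p (fun ω : Sym2 (Fin n) → Bool => ∃ x ∈ (Finset.univ : Finset (Fin n)) ×ˢ range r,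
      ((nb ω x.1 (part n r R x.2)).card : ℝ) ≤ (1 - ε) * p * m) ≤
      r * (n * Real.exp (-(ε ^ 2 / 4) * p * m)) := by
  refine (Pr_exists_le' (b := Real.exp (-(ε ^ 2 / 4) * p * m)) h0 h1 _ _ ?_).trans ?_
  · intro x hx
    have hc : x.2 < r := by simpa using (Finset.mem_product.1 hx).2
    have h2 := hm _ hc
    refine le_trans (Pr_mono h0 h1 ?_) ((Pr_deg_low h0 h1 hε hε1 x.1 (part n r R x.2)).trans ?_)
    · intro ω h
      exact h.trans (mul_le_mul_of_nonneg_left h2 (mul_nonneg (by linarith) h0))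
    · rw [Real.exp_le_exp]
      have : 0 ≤ ε ^ 2 / 4 * p := by positivity
      nlinarith
  · simp only [Finset.card_product, Finset.card_univ, Fintype.card_fin, Finset.card_range]
    push_cast
    apply le_of_eq; ring

lemma Pr_and_not {ι : Type*} [Fintype ι] {p : ℝ} (h0 : 0 ≤ p) (h1 : p ≤ 1)
    (A B : (ι → Bool) → Prop) : Pr p A - Pr p B ≤ Pr p (fun ω => A ω ∧ ¬ B ω) := by
  have h2 : Pr p A ≤ Pr p (fun ω => (A ω ∧ ¬ B ω) ∨ B ω) := Pr_mono h0 h1 fun ω h => by tauto
  have h3 := Pr_or_le h0 h1 (fun ω => A ω ∧ ¬ B ω) B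
  linarith

/-- From a polynomial lower bound on `p n * n` to the two growth conditions used. -/
lemma growth {p : ℕ → ℝ} {η : ℝ} (hη : 0 < η) (h : ∀ᶠ n : ℕ in atTop, (n : ℝ) ^ η ≤ p n * n) :
    Tendsto (fun n : ℕ => p n * n) atTop atTop ∧
    ∀ c : ℝ, 0 < c → Tendsto (fun n : ℕ => (n : ℝ) * Real.exp (-c * (p n * n))) atTop (𝓝 0) := by
  have h1 : Tendsto (fun n : ℕ => (n : ℝ) ^ η) atTop atTop :=
    (tendsto_rpow_atTop hη).comp tendsto_natCast_atTop_atTop
  refine ⟨tendsto_atTop_mono' _ h h1, fun c hc => ?_⟩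
  have h2 := (tendsto_rpow_mul_exp_neg_mul_atTop_nhds_zero (1 / η) c hc).comp h1
  refine squeeze_zero' (Eventually.of_forall fun n => by positivity) ?_ h2
  filter_upwards [h] with n hn
  simp only [Function.comp]
  rw [← Real.rpow_mul (Nat.cast_nonneg n), mul_one_div_cancel hη.ne', Real.rpow_one]
  refine mul_le_mul_of_nonneg_left (Real.exp_le_exp.2 ?_) (Nat.cast_nonneg n)
  nlinarith

end Pool.Agent.H279Z.RG
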