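import Pool.Agent.H279Z.RG.Graph

/-!
One layer of the construction of a small vertex set of large chromatic number.
-/

namespace Pool.Agent.H279Z.RG

open Finset Classical

lemma descFactorial_ratio (a b : ℕ) (hab : a ≤ b) (D : ℕ) :
    a.descFactorial D * b ^ D ≤ a ^ D * b.descFactorial D := by
  induction D with
  | zero => simp
  | succ D ih =>
    rw [Nat.descFactorial_succ, Nat.descFactorial_succ, pow_succ, pow_succ]
    have h : (a - D) * b ≤ a * (b - D) := by
      rcases le_or_gt a D with h | h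
      · simp [Nat.sub_eq_zero_of_le h]
      · obtain ⟨x, rfl⟩ := Nat.exists_eq_add_of_le h.le
        obtain ⟨y, rfl⟩ := Nat.exists_eq_add_of_le hab
        rw [Nat.add_sub_cancel_left, show D + x + y - D = x + y by omega]
        nlinarith [Nat.zero_le (D * y)]
    calc (a - D) * a.descFactorial D * (b ^ D * b)
        = ((a - D) * b) * (a.descFactorial D * b ^ D) := by ring
      _ ≤ (a * (b - D)) * (a ^ D * b.descFactorial D) := Nat.mul_le_mul h ih
      _ = _ := by ring

lemma choose_ratio (a b : ℕ) (hab : a ≤ b) (hb : 0 < b) (D : ℕ) :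
    (a.choose D : ℝ) ≤ ((a : ℝ) / b) ^ D * b.choose D := by
  have h := descFactorial_ratio a b hab D
  rw [Nat.descFactorial_eq_factorial_mul_choose, Nat.descFactorial_eq_factorial_mul_choose] at h
  have h2 : a.choose D * b ^ D ≤ a ^ D * b.choose D := by
    have h3 : D.factorial * (a.choose D * b ^ D) ≤ D.factorial * (a ^ D * b.choose D) := by
      calc _ = D.factorial * a.choose D * b ^ D := by ring
        _ ≤ _ := h
        _ = _ := by ring
    exact Nat.le_of_mul_le_mul_left h3 (Nat.factorial_pos D)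
  have h4 : (a.choose D : ℝ) * (b : ℝ) ^ D ≤ (a : ℝ) ^ D * b.choose D := by exact_mod_cast h2
  have hb' : (0 : ℝ) < (b : ℝ) ^ D := by positivity
  rw [div_pow, div_mul_eq_mul_div, le_div_iff₀ hb']
  exact h4

variable {V : Type*} [Fintype V]

/-- Any two large subsets of `S` and `S'` are joined by an edge. -/
def Joined (s C : ℕ) (S S' : Finset V) (ω : Sym2 V → Bool) : Prop :=
  ∀ T ⊆ S, ∀ T' ⊆ S', s ≤ C * T.card → s ≤ C * T'.card → ∃ x ∈ T, ∃ y ∈ T', ω s(x, y) = true

lemma step {p q : ℝ} (h0 : 0 ≤ p) (h1 : p ≤ 1) (S U : Finset V) (hSU : Disjoint S U)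
    (s L C D : ℕ) (hC : 0 < C) (hL : 0 < L) (hs : 0 < s) (hS : S.card ≤ L * s)
    (hD : D = L * C ^ 2 * (L + 4))
    (hq : q = (S.card.choose D : ℝ) * (p ^ D * (1 - p) ^ (S.card - D)))
    (hU1 : 2 * s ≤ q * U.card) (hU2 : q * U.card ≤ 3 * s) :
    Pr p (fun ω : Sym2 V → Bool => ¬ ∃ S' ⊆ U, S'.card = s ∧ Joined s C S S' ω) ≤
      Real.exp (-(s : ℝ) / 4) + Real.exp (-(s : ℝ)) := by
  have hdisj : ∀ u ∈ U, ∀ v ∈ U, u ≠ v →
      Disjoint {e | ∃ x ∈ S, e = s(u, x)} {e | ∃ x ∈ S, e = s(v, x)} := by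
    intro u hu v hv huv
    rw [Set.disjoint_left]
    rintro e ⟨x, hx, rfl⟩ ⟨y, hy, he⟩
    rcases Sym2.eq_iff.1 he with ⟨h, _⟩ | ⟨h, _⟩
    · exact huv h
    · exact Finset.disjoint_left.1 hSU hy (h ▸ hu)
  have hdep : ∀ (S' : Finset V), ∀ u ∈ U, DepOn {e | ∃ x ∈ S, e = s(u, x)}
      (fun ω : Sym2 V → Bool => nb ω u S ∈ S'.powersetCard D) := by
    intro S' u _ ω ω' h
    have := depOn_nb u S ω ω' h
    simp only at this ⊢
    rw [this]
  have hq0 : 0 ≤ q := by
    rw [hq]; have : 0 ≤ 1 - p := by linarith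
    positivity
  have hsR : (0 : ℝ) < s := by exact_mod_cast hs
  have hCR : (0 : ℝ) < C := by exact_mod_cast hC
  have hLR : (0 : ℝ) < L := by exact_mod_cast hL
  -- first failure
  have f1 : Pr p (fun ω : Sym2 V → Bool =>
      ((U.filter (fun u => nb ω u S ∈ S.powersetCard D)).card : ℝ) ≤ s) ≤
      Real.exp (-(s : ℝ) / 4) := by
    have h := chernoff_lower (p := p) (q := q) (t := s) (l := 1) h0 h1 zero_le_one U _
      (fun u ω => nb ω u S ∈ S.powersetCard D) (hdep S) hdisj
      (fun u _ => by rw [Pr_nb_mem p u S S (Finset.Subset.refl _), hq])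
    refine h.trans (Real.exp_le_exp.2 ?_)
    have := Real.exp_neg_one_lt_d9
    have h2 : (5 / 8 : ℝ) * (q * U.card) ≤ (1 - Real.exp (-1)) * (q * U.card) :=
      mul_le_mul_of_nonneg_right (by linarith) (by positivity)
    nlinarith
  -- second failure
  have f2 : ∀ T ∈ S.powerset.filter (fun T => s ≤ C * T.card), Pr p (fun ω : Sym2 V → Bool =>
      (s : ℝ) / C ≤ ((U.filter (fun u => nb ω u S ∈ (S \ T).powersetCard D)).card : ℝ)) ≤
      Real.exp (-((L : ℝ) + 1) * s) := by
    intro T hT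
    obtain ⟨hT1, hT2⟩ := Finset.mem_filter.1 hT
    have hTS : T ⊆ S := Finset.mem_powerset.1 hT1
    have hTpos : 0 < T.card := by
      rcases Nat.eq_zero_or_pos T.card with h | h
      · rw [h] at hT2; omega
      · exact h
    have hle : T.card ≤ S.card := Finset.card_le_card hTS
    have hSpos : 0 < S.card := by omega
    have hSR : (0 : ℝ) < S.card := by exact_mod_cast hSpos
    set l : ℝ := C * (L + 4) with hl
    have hratio : (((S \ T).card : ℝ) / S.card) ^ D ≤ Real.exp (-l) := by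
      have h2 : ((S \ T).card : ℝ) / S.card ≤ Real.exp (-(1 / (L * C))) := by
        rw [Finset.card_sdiff_of_subset hTS, Nat.cast_sub hle, sub_div, div_self hSR.ne']
        have h3 : (1 : ℝ) / (L * C) ≤ T.card / S.card := by
          rw [div_le_div_iff₀ (by positivity) hSR]
          have h4 : (S.card : ℝ) ≤ L * s := by exact_mod_cast hS
          have h5 : (s : ℝ) ≤ C * T.card := by exact_mod_cast hT2
          nlinarith
        linarith [Real.add_one_le_exp (-(1 / (L * C) : ℝ))]
      calc _ ≤ Real.exp (-(1 / (L * C))) ^ D := pow_le_pow_left₀ (by positivity) h2 D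
        _ = Real.exp (-l) := by
          rw [← Real.exp_nat_mul, hD, hl]; congr 1; push_cast; field_simp
    have h := chernoff_upper (p := p) (q := Real.exp (-l) * q) (t := (s : ℝ) / C) (l := l) h0 h1
      (by positivity) U _ (fun u ω => nb ω u S ∈ (S \ T).powersetCard D) (hdep (S \ T)) hdisj
      (fun u _ => by
        rw [Pr_nb_mem p u S (S \ T) Finset.sdiff_subset, hq, ← mul_assoc (Real.exp (-l))]
        have : 0 ≤ 1 - p := by linarith
        have hnn : 0 ≤ p ^ D * (1 - p) ^ (S.card - D) := by positivity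
        refine mul_le_mul_of_nonneg_right ?_ hnn
        refine (choose_ratio _ _ (Finset.card_le_card Finset.sdiff_subset) hSpos D).trans ?_
        exact mul_le_mul_of_nonneg_right hratio (by positivity))
    refine h.trans (Real.exp_le_exp.2 ?_)
    have e1 : Real.exp l * Real.exp (-l) = 1 := by rw [← Real.exp_add]; simp
    have e2 : l * (s / C) = (L + 4) * s := by rw [hl]; field_simp
    have e3 : (Real.exp l - 1) * (Real.exp (-l) * q) * U.card ≤ q * U.card := by
      have e4 : (Real.exp l - 1) * (Real.exp (-l) * q) * U.card =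
          (Real.exp l * Real.exp (-l)) * (q * U.card) - Real.exp (-l) * (q * U.card) := by ring
      have e5 : 0 ≤ Real.exp (-l) * (q * U.card) := by positivity
      rw [e4, e1]; linarith
    rw [e2]; linarith
  have f2' := Pr_exists_le' h0 h1 _ _ f2
  have hcard : ((S.powerset.filter (fun T => s ≤ C * T.card)).card : ℝ) ≤ Real.exp (L * s) := by
    have h2 : (S.powerset.filter (fun T => s ≤ C * T.card)).card ≤ 2 ^ (L * s) := by
      refine (Finset.card_filter_le _ _).trans ?_
      rw [Finset.card_powerset]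
      exact Nat.pow_le_pow_right (by norm_num) hS
    have h3 : ((2 ^ (L * s) : ℕ) : ℝ) ≤ Real.exp (L * s) := by
      push_cast
      rw [← Nat.cast_mul, ← mul_one ((L * s : ℕ) : ℝ), Real.exp_nat_mul]
      exact pow_le_pow_left₀ (by norm_num) (by linarith [Real.add_one_le_exp (1 : ℝ)]) _
    exact le_trans (by exact_mod_cast h2) h3
  have f3 : ((S.powerset.filter (fun T => s ≤ C * T.card)).card : ℝ) *
      Real.exp (-((L : ℝ) + 1) * s) ≤ Real.exp (-(s : ℝ)) := by
    refine (mul_le_mul_of_nonneg_right hcard (Real.exp_pos _).le).trans ?_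
    rw [← Real.exp_add]; apply le_of_eq; congr 1; ring
  refine le_trans (Pr_mono h0 h1 ?_) ((Pr_or_le h0 h1 _ _).trans (add_le_add f1 (f2'.trans f3)))
  intro ω hω
  by_contra hcon
  rw [not_or] at hcon
  obtain ⟨c1, c2⟩ := hcon
  apply hω
  have c1' : s ≤ (U.filter (fun u => nb ω u S ∈ S.powersetCard D)).card := by
    have := (not_le.1 c1).le
    exact_mod_cast this
  obtain ⟨S', hS'1, hS'2⟩ := Finset.exists_subset_card_eq c1'
  refine ⟨S', hS'1.trans (Finset.filter_subset _ _), hS'2, fun T hT T' hT' ht ht' => ?_⟩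
  by_contra hne
  apply c2
  refine ⟨T, Finset.mem_filter.2 ⟨Finset.mem_powerset.2 hT, ht⟩, ?_⟩
  have hsub : T' ⊆ U.filter (fun u => nb ω u S ∈ (S \ T).powersetCard D) := by
    intro y hy
    obtain ⟨hyU, hy2⟩ := Finset.mem_filter.1 (hS'1 (hT' hy))
    obtain ⟨_, hy3⟩ := Finset.mem_powersetCard.1 hy2
    refine Finset.mem_filter.2 ⟨hyU, Finset.mem_powersetCard.2 ⟨fun x hx => ?_, hy3⟩⟩
    obtain ⟨hxS, hxw⟩ := Finset.mem_filter.1 hx
    refine Finset.mem_sdiff.2 ⟨hxS, fun hxT => hne ⟨x, hxT, y, hy, ?_⟩⟩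
    rw [Sym2.eq_swap]; exact hxw
  have h6 : (T'.card : ℝ) ≤ (U.filter (fun u => nb ω u S ∈ (S \ T).powersetCard D)).card := by
    exact_mod_cast Finset.card_le_card hsub
  have h7 : (s : ℝ) ≤ C * T'.card := by exact_mod_cast ht'
  rw [div_le_iff₀ hCR]
  nlinarith

end Pool.Agent.H279Z.RG
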