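import Pool.Agent.H279Z.RG.Parts

/-!
The three-part construction: a spanning subgraph of the random graph with minimum degree close to
`2 p n / 3`, large chromatic number and all small subgraphs `3`-colourable.
-/

namespace Pool.Agent.H279Z.RG

open Finset Classical Filter Topology

/-- Common neighbours of `v` and the set `W`, outside `R`. -/
noncomputable def cross {n : ℕ} (R W : Finset (Fin n)) (v : Fin n) (ω : Sym2 (Fin n) → Bool) :
    Finset (Fin n) :=
  ((Finset.univ \ R).erase v).filter (fun x => ω s(v, x) = true ∧ ∃ w ∈ W, ω s(w, x) = true)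

lemma cross_event {n : ℕ} {p ε : ℝ} (h0 : 0 ≤ p) (h1 : p ≤ 1) (hε : 0 < ε)
    (R W : Finset (Fin n)) (hW : W ⊆ R) (hc : (W.card : ℝ) * p ≤ ε / 4) :
    Pr p (fun ω : Sym2 (Fin n) → Bool => ∃ v ∈ Finset.univ \ W,
      ε * (p * n) ≤ ((cross R W v ω).card : ℝ)) ≤ n * Real.exp (-(ε / 2) * (p * n)) := by
  refine (Pr_exists_le' (b := Real.exp (-(ε / 2) * (p * n))) h0 h1 _ _ ?_).trans ?_
  · intro v hv
    have hvW : v ∉ W := (Finset.mem_sdiff.1 hv).2
    have h := chernoff_upper (p := p) (q := p * (ε / 4)) (t := ε * (p * n)) (l := 1) h0 h1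
      zero_le_one ((Finset.univ \ R).erase v) (fun x => {e | ∃ y ∈ insert v W, e = s(y, x)})
      (fun x ω => ω s(v, x) = true ∧ ∃ w ∈ W, ω s(w, x) = true) ?_ ?_ ?_
    · refine h.trans (Real.exp_le_exp.2 ?_)
      have h2 : (((Finset.univ \ R).erase v).card : ℝ) ≤ n := by
        have := Finset.card_le_univ ((Finset.univ \ R).erase v)
        rw [Fintype.card_fin] at this
        exact_mod_cast this
      have h3 := Real.exp_one_lt_d9
      have h4 : 0 ≤ p * (ε / 4) := by positivity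
      have h5 : (Real.exp 1 - 1) * (p * (ε / 4)) ≤ 2 * (p * (ε / 4)) :=
        mul_le_mul_of_nonneg_right (by linarith) h4
      have h6 : (Real.exp 1 - 1) * (p * (ε / 4)) * (((Finset.univ \ R).erase v).card : ℝ) ≤
          2 * (p * (ε / 4)) * n :=
        mul_le_mul h5 h2 (Nat.cast_nonneg _) (by positivity)
      linarith
    · intro x _
      refine depOn_of_imp fun ω ω' hω ⟨a1, w, hw, a2⟩ => ⟨?_, w, hw, ?_⟩
      · rw [← hω _ ⟨v, Finset.mem_insert_self _ _, rfl⟩]; exact a1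
      · rw [← hω _ ⟨w, Finset.mem_insert_of_mem hw, rfl⟩]; exact a2
    · intro x hx x' _ hxx'
      rw [Set.disjoint_left]
      rintro e ⟨y, _, rfl⟩ ⟨y', hy', he⟩
      rcases Sym2.eq_iff.1 he with ⟨_, h⟩ | ⟨_, h⟩
      · exact hxx' h
      · obtain ⟨b1, b2⟩ := Finset.mem_erase.1 hx
        rcases Finset.mem_insert.1 hy' with h' | h'
        · exact b1 (h.trans h')
        · exact (Finset.mem_sdiff.1 b2).2 (hW (h ▸ h'))
    · intro x hx
      have h2 : Pr p (fun ω : Sym2 (Fin n) → Bool => ω s(v, x) = true ∧ ∃ w ∈ W, ω s(w, x) = true)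
          ≤ Pr p (fun ω : Sym2 (Fin n) → Bool => ∃ w ∈ W,
            ∀ e ∈ ({s(v, x), s(w, x)} : Finset (Sym2 (Fin n))), ω e = true) := by
        refine Pr_mono h0 h1 ?_
        rintro ω ⟨a1, w, hw, a2⟩
        refine ⟨w, hw, fun e he => ?_⟩
        rcases Finset.mem_insert.1 he with rfl | he
        · exact a1
        · rw [Finset.mem_singleton.1 he]; exact a2
      refine h2.trans ((Pr_exists_le' (b := p ^ 2) h0 h1 _ _ ?_).trans ?_)
      · intro w hw
        rw [Pr_all, Finset.card_pair]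
        intro he
        have := Sym2.congr_left.1 he
        exact hvW (this ▸ hw)
      · nlinarith
  · refine mul_le_mul_of_nonneg_right ?_ (Real.exp_pos _).le
    have := Finset.card_le_univ (Finset.univ \ W)
    rw [Fintype.card_fin] at this
    exact_mod_cast this

lemma depOn_cross {n : ℕ} (t : ℝ) (R W : Finset (Fin n)) :
    DepOn (inside R)ᶜ (fun ω : Sym2 (Fin n) → Bool => ∃ v ∈ Finset.univ \ W,
      t ≤ ((cross R W v ω).card : ℝ)) := by
  intro ω ω' h
  have : ∀ v, cross R W v ω = cross R W v ω' := by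
    intro v
    refine Finset.filter_congr fun x hx => ?_
    have hx' : x ∉ R := (Finset.mem_sdiff.1 (Finset.mem_erase.1 hx).2).2
    have e : ∀ y, ω s(y, x) = ω' s(y, x) := fun y => h _ fun hin => hx' (mem_inside.1 hin).2
    simp only [e]
  simp only [this]

/-- The target property. -/
def Good3 {n : ℕ} (h C : ℕ) (t : ℝ) (Γ : SimpleGraph (Fin n)) : Prop :=
  ∃ G : SimpleGraph (Fin n), G ≤ Γ ∧
    (∀ A : Finset (Fin n), A.card ≤ h →
      ∃ ψ : Fin n → Fin 3, ∀ a ∈ A, ∀ b ∈ A, G.Adj a b → ψ a ≠ ψ b) ∧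
    (∀ v, t ≤ ((G.neighborSet v).ncard : ℝ)) ∧ ¬ G.Colorable C

lemma build3 {n h C : ℕ} {κ p a b : ℝ} (R : Finset (Fin n)) (x : Finset (Fin n) × SimpleGraph (Fin n))
    (ω : Sym2 (Fin n) → Bool) (hcore : Core h C κ p R x ω) (hb : 0 ≤ b)
    (h1 : ∀ v, ∀ c < 3, a ≤ ((nb ω v (part n 3 R c)).card : ℝ))
    (h2 : ∀ v ∉ x.1, ((cross R x.1 v ω).card : ℝ) ≤ b) : Good3 h C (2 * a - 1 - b) (gr ω) := by
  obtain ⟨W, F⟩ := x
  obtain ⟨c1, -, c3, c4, c5, c6⟩ := hcore
  simp only at c1 c3 c4 c5 c6 h2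
  let role : Fin n → Fin 3 := fun v =>
    if v ∈ R ∨ ∃ w ∈ W, ω s(w, v) = true then 0 else ⟨v.val % 3, Nat.mod_lt _ (by norm_num)⟩
  let G : SimpleGraph (Fin n) :=
    { Adj := fun u v => F.Adj u v ∨ ((gr ω).Adj u v ∧
        ((u ∈ W ∧ v ∉ R) ∨ (v ∈ W ∧ u ∉ R) ∨ (u ∉ W ∧ v ∉ W ∧ role u ≠ role v)))
      symm := ⟨fun u v h => by
        rcases h with h | ⟨h, h'⟩
        · exact Or.inl h.symm
        · refine Or.inr ⟨h.symm, ?_⟩
          rcases h' with h' | h' | h'
          · exact Or.inr (Or.inl h')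
          · exact Or.inl h'
          · exact Or.inr (Or.inr ⟨h'.2.1, h'.1, h'.2.2.symm⟩)⟩
      loopless := ⟨fun u h => by
        rcases h with h | ⟨h, _⟩
        · exact h.ne rfl
        · exact h.ne rfl⟩ }
  have hdisj : ∀ v, ∀ c c', c ≠ c' → Disjoint (nb ω v (part n 3 R c)) (nb ω v (part n 3 R c')) := by
    intro v c c' hcc
    rw [Finset.disjoint_left]
    intro y hy hy'
    simp only [nb, part, Finset.mem_filter] at hy hy'
    exact hcc (hy.1.2.1.symm.trans hy'.1.2.1)
  have hunion : ∀ v, ∀ c < 3, ∀ c' < 3, c ≠ c' →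
      2 * a ≤ ((nb ω v (part n 3 R c) ∪ nb ω v (part n 3 R c')).card : ℝ) := by
    intro v c hc c' hc' hcc
    rw [Finset.card_union_of_disjoint (hdisj v c c' hcc)]
    push_cast
    linarith [h1 v c hc, h1 v c' hc']
  have hncard : ∀ v (T : Finset (Fin n)), (∀ y ∈ T, G.Adj v y) →
      (T.card : ℝ) ≤ ((G.neighborSet v).ncard : ℝ) := by
    intro v T hT
    have : (T : Set (Fin n)).ncard ≤ (G.neighborSet v).ncard :=
      Set.ncard_le_ncard (fun y hy => hT y hy) (Set.toFinite _)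
    rw [Set.ncard_coe_finset] at this
    exact_mod_cast this
  refine ⟨G, ?_, ?_, ?_, ?_⟩
  · rintro u v (h | ⟨h, _⟩)
    · exact c3 h
    · exact h
  · intro A hA
    obtain ⟨φ, hφ⟩ := c6 A hA
    have hX : ∀ u v, (gr ω).Adj u v → u ∈ W → role v = 0 := by
      intro u v h hu
      have : v ∈ R ∨ ∃ w ∈ W, ω s(w, v) = true := Or.inr ⟨u, hu, ((gr_adj _ _ _).1 h).1⟩
      simp only [role, this, if_true]
    refine ⟨fun v => if v ∈ W then (if φ v then 1 else 2) else role v, ?_⟩
    rintro u hu v hv (h | ⟨h, ⟨h', h''⟩ | ⟨h', h''⟩ | ⟨h', h'', h'''⟩⟩)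
    · have e1 := c4 u v h
      have e2 := c4 v u h.symm
      have e3 := hφ u hu v hv h
      simp only [e1, e2, if_true]
      cases hu' : φ u <;> cases hv' : φ v <;> simp_all
    · have e2 : v ∉ W := fun hv => h'' (c1 hv)
      simp only [h', e2, if_true, if_false, hX u v h h']
      cases φ u <;> simp
    · have e2 : u ∉ W := fun hu => h'' (c1 hu)
      simp only [h', e2, if_true, if_false, hX v u h.symm h']
      cases φ v <;> simp
    · simp only [h', h'', if_false]; exact h'''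
  · intro v
    by_cases hv : v ∈ W
    · have e1 := hunion v 1 (by norm_num) 2 (by norm_num) (by norm_num)
      have e2 := hncard v (nb ω v (part n 3 R 1) ∪ nb ω v (part n 3 R 2)) (by
        intro y hy
        have e3 : ω s(v, y) = true ∧ y ∉ R := by
          rcases Finset.mem_union.1 hy with hy | hy <;>
          · simp only [nb, part, Finset.mem_filter] at hy
            exact ⟨hy.2, hy.1.2.2⟩
        have e4 : v ≠ y := by rintro rfl; exact e3.2 (c1 hv)
        exact Or.inr ⟨(gr_adj _ _ _).2 ⟨e3.1, e4⟩, Or.inl ⟨hv, e3.2⟩⟩)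
      linarith
    · obtain ⟨c, hc, c', hc', hcc, d1, d2⟩ : ∃ c < 3, ∃ c' < 3, c ≠ c' ∧ c ≠ (role v).val ∧
          c' ≠ (role v).val := by
        have := (role v).2
        refine ⟨((role v).val + 1) % 3, by omega, ((role v).val + 2) % 3, by omega, by omega,
          by omega, by omega⟩
      have e1 := hunion v c hc c' hc' hcc
      have e2 := hncard v ((nb ω v (part n 3 R c) ∪ nb ω v (part n 3 R c')) \
          insert v (cross R W v ω)) (by
        intro y hy
        obtain ⟨hy, hy2⟩ := Finset.mem_sdiff.1 hy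
        have e3 : ω s(v, y) = true ∧ y ∉ R ∧ y.val % 3 ≠ (role v).val := by
          rcases Finset.mem_union.1 hy with hy | hy
          · simp only [nb, part, Finset.mem_filter] at hy
            exact ⟨hy.2, hy.1.2.2, by rw [hy.1.2.1]; exact d1⟩
          · simp only [nb, part, Finset.mem_filter] at hy
            exact ⟨hy.2, hy.1.2.2, by rw [hy.1.2.1]; exact d2⟩
        rw [Finset.mem_insert, not_or] at hy2
        have e4 : ¬ ∃ w ∈ W, ω s(w, y) = true := by
          intro hh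
          apply hy2.2
          simp only [cross, Finset.mem_filter, Finset.mem_erase, Finset.mem_sdiff,
            Finset.mem_univ, true_and]
          exact ⟨⟨hy2.1, e3.2.1⟩, e3.1, hh⟩
        have e5 : (role y).val = y.val % 3 := by
          have : ¬ (y ∈ R ∨ ∃ w ∈ W, ω s(w, y) = true) := by
            rintro (h | h)
            · exact e3.2.1 h
            · exact e4 h
          simp only [role, this, if_false]
        refine Or.inr ⟨(gr_adj _ _ _).2 ⟨e3.1, fun h => hy2.1 h.symm⟩,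
          Or.inr (Or.inr ⟨hv, fun hy => e3.2.1 (c1 hy), fun h => e3.2.2 ?_⟩)⟩
        rw [← e5, h])
      have e3 := Finset.le_card_sdiff (insert v (cross R W v ω))
        (nb ω v (part n 3 R c) ∪ nb ω v (part n 3 R c'))
      have e4 := Finset.card_insert_le v (cross R W v ω)
      have e5 : (nb ω v (part n 3 R c) ∪ nb ω v (part n 3 R c')).card ≤
          ((nb ω v (part n 3 R c) ∪ nb ω v (part n 3 R c')) \ insert v (cross R W v ω)).card +
            ((cross R W v ω).card + 1) := by omega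
      have e6 : ((nb ω v (part n 3 R c) ∪ nb ω v (part n 3 R c')).card : ℝ) ≤
          ((nb ω v (part n 3 R c) ∪ nb ω v (part n 3 R c')) \ insert v (cross R W v ω)).card +
            ((cross R W v ω).card + 1) := by exact_mod_cast e5
      have e7 := h2 v hv
      linarith
  · intro hcol
    exact c5 (hcol.mono_left (fun u v h => Or.inl h))

lemma Good3.mono {n h C : ℕ} {t t' : ℝ} {Γ : SimpleGraph (Fin n)} (H : Good3 h C t Γ)
    (ht : t' ≤ t) : Good3 h C t' Γ := by
  obtain ⟨G, h1, h2, h3, h4⟩ := H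
  exact ⟨G, h1, h2, fun v => ht.trans (h3 v), h4⟩

theorem three_part {p : ℕ → ℝ} (hp : ∀ n, 0 < p n ∧ p n ≤ 1) (hp0 : Tendsto p atTop (𝓝 0))
    {η : ℝ} (hη : 0 < η) (hlow : ∀ᶠ n : ℕ in atTop, (n : ℝ) ^ η ≤ p n * n) (h C : ℕ) {d : ℝ}
    (hd : d < 2 / 3) : ∀ᶠ n : ℕ in atTop,
      1 / 2 ≤ Pr (p n) (fun ω : Sym2 (Fin n) → Bool => Good3 h C (d * p n * n) (gr ω)) := by
  obtain ⟨g1, g2⟩ := growth hη hlow
  set ε : ℝ := min ((2 / 3 - d) / 8) (1 / 12) with hεdef
  have hε : 0 < ε := lt_min (by linarith) (by norm_num)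
  have hε1 : ε ≤ 1 / 12 := min_le_right _ _
  have hε2 : ε ≤ (2 / 3 - d) / 8 := min_le_left _ _
  obtain ⟨K, p0, hK, hp0', H⟩ := core h C (κ := ε / 4) (δ := 1 / 4) (by positivity) (by norm_num)
  filter_upwards [hp0.eventually (ge_mem_nhds hp0'),
    g1.eventually_ge_atTop ((K + 1) / ε),
    (g2 (ε / 2) (by positivity)).eventually (ge_mem_nhds (show (0 : ℝ) < 1 / 8 by norm_num)),
    (g2 (ε ^ 2 / 4 * (1 / 3 - 2 * ε)) (by
      have : 0 < 1 / 3 - 2 * ε := by linarith
      positivity)).eventually (ge_mem_nhds (show (0 : ℝ) < 1 / 24 by norm_num))]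
    with n e1 e2 e3 e4
  obtain ⟨q0, q1⟩ := hp n
  set q := p n with hq
  rw [div_le_iff₀ hε] at e2
  have hnn : (0 : ℝ) ≤ n := Nat.cast_nonneg n
  have hqn : q * n ≤ n := by nlinarith
  have hr1 : (⌈K / q⌉₊ : ℝ) ≤ ε * n := by
    have a1 := Nat.ceil_lt_add_one (show 0 ≤ K / q by positivity)
    have a2 : K / q + 1 ≤ ε * n := by
      rw [div_add_one q0.ne', div_le_iff₀ q0]; nlinarith
    linarith
  have hr2 : ⌈K / q⌉₊ ≤ (Finset.univ : Finset (Fin n)).card := by
    rw [Finset.card_univ, Fintype.card_fin]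
    have : (⌈K / q⌉₊ : ℝ) ≤ n := by nlinarith
    exact_mod_cast this
  obtain ⟨R, -, hR⟩ := Finset.exists_subset_card_eq hr2
  have H1 := H q q0 e1 (Fin n) R (by rw [hR]; exact Nat.le_ceil _)
  have H2 := cond_lemma (p := q) (b := n * Real.exp (-(ε / 2) * (q * n))) q0.le q1 (by positivity)
    (inside R) (fun x ω => Core h C (ε / 4) q R x ω)
    (fun x ω => ∃ v ∈ Finset.univ \ x.1, ε * (q * n) ≤ ((cross R x.1 v ω).card : ℝ))
    (fun x => depOn_core _ _ _ _ _ x)
    (fun x ω hx => ⟨depOn_cross _ _ _, cross_event q0.le q1 hε R x.1 hx.1 hx.2.1⟩)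
  have hone : 1 ≤ ε * (q * n) := by nlinarith
  have H3 := deg_event (p := q) (ε := ε) (m := (1 / 3 - 2 * ε) * n) q0.le q1 hε (by linarith) n 3 R
    (fun c hc => by
      have a1 := part_card n 3 R c hc
      rw [hR] at a1
      push_cast at a1
      nlinarith)
  have H4 := Pr_and_not q0.le q1
    (fun ω : Sym2 (Fin n) → Bool => ∃ x, Core h C (ε / 4) q R x ω ∧
      ¬ ∃ v ∈ Finset.univ \ x.1, ε * (q * n) ≤ ((cross R x.1 v ω).card : ℝ))
    (fun ω : Sym2 (Fin n) → Bool => ∃ x ∈ (Finset.univ : Finset (Fin n)) ×ˢ range 3,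
      ((nb ω x.1 (part n 3 R x.2)).card : ℝ) ≤ (1 - ε) * q * ((1 / 3 - 2 * ε) * n))
  have e5 : -(ε ^ 2 / 4) * q * ((1 / 3 - 2 * ε) * n) = -(ε ^ 2 / 4 * (1 / 3 - 2 * ε)) * (q * n) := by
    ring
  rw [e5] at H3
  push_cast at H3
  refine le_trans (by linarith) (H4.trans (Pr_mono q0.le q1 ?_))
  rintro ω ⟨⟨x, hx, hb⟩, hdeg⟩
  have := build3 (a := (1 - ε) * q * ((1 / 3 - 2 * ε) * n)) (b := ε * (q * n)) R x ω hx
    (by positivity)
    (fun v c hc => by
      by_contra hcon
      exact hdeg ⟨(v, c), by simpa using hc, (not_le.1 hcon).le⟩)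
    (fun v hv => by
      by_contra hcon
      exact hb ⟨v, by simpa using hv, (not_le.1 hcon).le⟩)
  refine this.mono ?_
  have a1 : 0 ≤ q * n := by positivity
  have a2 : d ≤ 2 / 3 - 8 * ε := by linarith
  have a3 : d * (q * n) ≤ (2 / 3 - 8 * ε) * (q * n) := mul_le_mul_of_nonneg_right a2 a1
  have a4 : 0 ≤ ε * ε * (q * n) := by positivity
  have a5 : 0 ≤ ε * (q * n) := by positivity
  nlinarith

end Pool.Agent.H279Z.RG
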